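import Pool.Agent.Lib.MP_74a55f_blocks.Defs

/-!
# Lemmas on admissible states and configurations
-/

set_option autoImplicit false
set_option linter.unusedSectionVars false

open Finset

namespace Pool.Agent.MP_74a55f_co.Blocks

variable {V : Type} [Fintype V] [DecidableEq V] {G : SimpleGraph V} [DecidableRel G.Adj] {D : ℕ}
  {W N R T : Finset V} {a : V} {lab : V → V}

theorem Cf.sub {u : V} (h : Cf G D W (insert u N) a R T lab) : Cf G D W N a R T lab :=
  { h.toSt with
    N_sub := (subset_insert u N).trans h.N_sub
    a_out := h.a_out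
    degN := fun v hv => h.degN v (mem_insert_of_mem hv) }

theorem St.cf (h : St G D W R T lab) (ha : a ∉ W) : Cf G D W ∅ a R T lab :=
  { h with
    N_sub := empty_subset _
    a_out := ha
    degN := fun v hv => absurd hv (notMem_empty v) }

/-- a neighbour outside `R ∪ T` becomes an element of `R` with label `a` -/
theorem Cf.fresh {u : V} (h : Cf G D W (insert u N) a R T lab) (huT : u ∉ T) :
    Cf G D W N a (insert u R) T (Function.update lab u a) where
  R_sub := insert_subset (h.N_sub (mem_insert_self u N)) h.R_sub
  T_sub := h.T_sub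
  disj := disjoint_insert_left.2 ⟨huT, h.disj⟩
  labR := by
    intro v hv
    by_cases hvu : v = u
    · rw [hvu, Function.update_self]; exact h.a_out
    · rw [Function.update_of_ne hvu]
      exact h.labR v ((mem_insert.1 hv).resolve_left hvu)
  labT := by
    intro v hv
    by_cases hvu : v = u
    · rw [hvu, Function.update_self]; exact h.a_out
    · rw [Function.update_of_ne hvu]; exact h.labT v hv
  degR := by
    intro v hv
    rcases mem_insert.1 hv with rfl | hv
    · exact h.degN v (mem_insert_self v N)
    · exact h.degR v hv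
  degT := h.degT
  N_sub := (subset_insert u N).trans h.N_sub
  a_out := h.a_out
  degN := fun v hv => h.degN v (mem_insert_of_mem hv)

theorem mrg_out {j v : V} (ha : a ∉ W) (hv : lab v ∉ W) : mrg lab j a v ∉ W := by
  unfold mrg
  split_ifs
  · exact ha
  · exact hv

theorem Cf.mrg {j : V} (h : Cf G D W N a R T lab) : Cf G D W N a R T (mrg lab j a) :=
  { h with
    labR := fun v hv => mrg_out h.a_out (h.labR v hv)
    labT := fun v hv => mrg_out h.a_out (h.labT v hv) }

theorem Cf.eraseR {u : V} (h : Cf G D W N a R T lab) : Cf G D W N a (R.erase u) T lab :=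
  { h with
    R_sub := (erase_subset u R).trans h.R_sub
    disj := disjoint_of_subset_left (erase_subset u R) h.disj
    labR := fun v hv => h.labR v (mem_of_mem_erase hv)
    degR := fun v hv => h.degR v (mem_of_mem_erase hv) }

/-- moving `u` from `R` to `T` -/
theorem Cf.move {u : V} (h : Cf G D W N a R T lab) (huR : u ∈ R) :
    Cf G D W N a (R.erase u) (insert u T) lab where
  R_sub := (erase_subset u R).trans h.R_sub
  T_sub := insert_subset (h.R_sub huR) h.T_sub
  disj := by
    rw [disjoint_insert_right]
    exact ⟨notMem_erase u R, disjoint_of_subset_left (erase_subset u R) h.disj⟩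
  labR := fun v hv => h.labR v (mem_of_mem_erase hv)
  labT := by
    intro v hv
    rcases mem_insert.1 hv with rfl | hv
    · exact h.labR v huR
    · exact h.labT v hv
  degR := fun v hv => h.degR v (mem_of_mem_erase hv)
  degT := by
    intro v hv
    rcases mem_insert.1 hv with rfl | hv
    · exact h.degR v huR
    · exact h.degT v hv
  N_sub := h.N_sub
  a_out := h.a_out
  degN := h.degN

theorem Cf.upd {u : V} (h : Cf G D W N a R T lab) :
    Cf G D W N a R T (Function.update lab u a) :=
  { h with
    labR := by
      intro v hv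
      by_cases hvu : v = u
      · rw [hvu, Function.update_self]; exact h.a_out
      · rw [Function.update_of_ne hvu]; exact h.labR v hv
    labT := by
      intro v hv
      by_cases hvu : v = u
      · rw [hvu, Function.update_self]; exact h.a_out
      · rw [Function.update_of_ne hvu]; exact h.labT v hv }

/-! ### moves at the same `W` -/

theorem St.eraseR {u : V} (h : St G D W R T lab) : St G D W (R.erase u) T lab where
  R_sub := (erase_subset u R).trans h.R_sub
  T_sub := h.T_sub
  disj := disjoint_of_subset_left (erase_subset u R) h.disj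
  labR := fun v hv => h.labR v (mem_of_mem_erase hv)
  labT := h.labT
  degR := fun v hv => h.degR v (mem_of_mem_erase hv)
  degT := h.degT

theorem St.eraseT {u : V} (h : St G D W R T lab) : St G D W R (T.erase u) lab where
  R_sub := h.R_sub
  T_sub := (erase_subset u T).trans h.T_sub
  disj := disjoint_of_subset_right (erase_subset u T) h.disj
  labR := h.labR
  labT := fun v hv => h.labT v (mem_of_mem_erase hv)
  degR := h.degR
  degT := fun v hv => h.degT v (mem_of_mem_erase hv)

theorem St.insertT {s : V} (h : St G D W R T lab) (hsW : s ∈ W) (hsR : s ∉ R)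
    (hl : lab s ∉ W) (hd : (nb G W s).card ≤ D) : St G D W R (insert s T) lab where
  R_sub := h.R_sub
  T_sub := insert_subset hsW h.T_sub
  disj := disjoint_insert_right.2 ⟨hsR, h.disj⟩
  labR := h.labR
  labT := by
    intro v hv
    rcases mem_insert.1 hv with rfl | hv
    · exact hl
    · exact h.labT v hv
  degR := h.degR
  degT := by
    intro v hv
    rcases mem_insert.1 hv with rfl | hv
    · exact hd
    · exact h.degT v hv

theorem St.insertR {s : V} (h : St G D W R T lab) (hsW : s ∈ W) (hsT : s ∉ T)
    (hl : lab s ∉ W) (hd : (nb G W s).card ≤ D) : St G D W (insert s R) T lab where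
  R_sub := insert_subset hsW h.R_sub
  T_sub := h.T_sub
  disj := disjoint_insert_left.2 ⟨hsT, h.disj⟩
  labR := by
    intro v hv
    rcases mem_insert.1 hv with rfl | hv
    · exact hl
    · exact h.labR v hv
  labT := h.labT
  degR := by
    intro v hv
    rcases mem_insert.1 hv with rfl | hv
    · exact hd
    · exact h.degR v hv
  degT := h.degT

/-! ### removal of a vertex -/

theorem nb_erase_le (W : Finset V) (x u : V) : (nb G (W.erase x) u).card ≤ (nb G W u).card :=
  card_le_card (filter_subset_filter _ (erase_subset x W))

theorem nb_sub {x : V} : nb G W x ⊆ W.erase x := by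
  intro u hu
  rw [nb, mem_filter] at hu
  exact mem_erase.2 ⟨fun h => G.loopless.irrefl x (h ▸ hu.2), hu.1⟩

theorem nb_deg (hG : ∀ v, (nb G univ v).card ≤ D + 1) {x : V} (hx : x ∈ W) {u : V}
    (hu : u ∈ nb G W x) : (nb G (W.erase x) u).card ≤ D := by
  rw [nb, mem_filter] at hu
  have h1 : nb G (W.erase x) u ⊆ (nb G univ u).erase x := by
    intro v hv
    rw [nb, mem_filter, mem_erase] at hv
    rw [mem_erase, nb, mem_filter]
    exact ⟨hv.1.1, mem_univ v, hv.2⟩
  have h2 : x ∈ nb G univ u := by
    rw [nb, mem_filter]
    exact ⟨mem_univ x, hu.2.symm⟩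
  have h3 := card_le_card h1
  rw [card_erase_of_mem h2] at h3
  have := hG u
  omega

/-- removal of `x ∈ W`; the remaining blocks avoid `x` -/
theorem St.remove (hG : ∀ v, (nb G univ v).card ≤ D + 1) {x : V} (hx : x ∈ W)
    (h : St G D W R T lab) (hxR : x ∉ R) (hxT : x ∉ T) {b : V} (hb : b ∉ W.erase x) :
    Cf G D (W.erase x) (nb G W x) b R T lab where
  R_sub := fun v hv => mem_erase.2 ⟨fun e => hxR (e ▸ hv), h.R_sub hv⟩
  T_sub := fun v hv => mem_erase.2 ⟨fun e => hxT (e ▸ hv), h.T_sub hv⟩
  disj := h.disj
  labR := fun v hv hm => h.labR v hv (mem_of_mem_erase hm)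
  labT := fun v hv hm => h.labT v hv (mem_of_mem_erase hm)
  degR := fun v hv => (nb_erase_le W x v).trans (h.degR v hv)
  degT := fun v hv => (nb_erase_le W x v).trans (h.degT v hv)
  N_sub := nb_sub
  a_out := hb
  degN := fun _ hu => nb_deg hG hx hu

theorem St.empty : St G D W ∅ ∅ lab where
  R_sub := empty_subset _
  T_sub := empty_subset _
  disj := disjoint_empty_left _
  labR := fun v hv => absurd hv (notMem_empty v)
  labT := fun v hv => absurd hv (notMem_empty v)
  degR := fun v hv => absurd hv (notMem_empty v)
  degT := fun v hv => absurd hv (notMem_empty v)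

end Pool.Agent.MP_74a55f_co.Blocks
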