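import Pool.Agent.Lib.MP_74a55f_blocks.Defs

/-!
# Elementary properties of the bounds
-/

set_option autoImplicit false
set_option linter.unusedSectionVars false

namespace Pool.Agent.MP_74a55f_co.Blocks

variable {h lam eta C : ℝ}

theorem PP_pos (p : Par0 h lam eta C) (r t : ℕ) : 0 < PP C lam eta r t := by
  have h1 := p.C_pos
  have h2 : 0 < lam := by linarith [p.lam3]
  have h3 : 0 < eta := by linarith [p.eta1]
  unfold PP
  positivity

theorem FF_nonneg (p : Par0 h lam eta C) (r t : ℕ) : 0 ≤ FF C lam eta r t := by
  have h0 := (PP_pos p r t).le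
  unfold FF
  split_ifs <;> first | exact h0 | norm_num

theorem QQ_pos (p : Par0 h lam eta C) (r t : ℕ) : 0 < QQ C lam eta r t := by
  have h0 := PP_pos p r t
  unfold QQ
  split_ifs
  · norm_num
  · exact h0

theorem QQ_eq {r t : ℕ} (hrt : 2 ≤ r + t) : QQ C lam eta r t = PP C lam eta r t := by
  unfold QQ
  rw [if_neg (by omega)]

theorem FF_eq {r t : ℕ} (hrt : 3 ≤ r + t) : FF C lam eta r t = PP C lam eta r t := by
  unfold FF
  rw [if_neg (by omega), if_neg (by omega), if_neg (by omega), if_neg (by omega),
    if_neg (by omega)]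

theorem FF_02 : FF C lam eta 0 2 = C * eta ^ 2 := by
  unfold FF PP
  norm_num

theorem FF_le_PP (p : Par0 h lam eta C) {r t : ℕ} (hrt : 2 ≤ r + t) :
    FF C lam eta r t ≤ PP C lam eta r t := by
  unfold FF
  rw [if_neg (by omega), if_neg (by omega), if_neg (by omega)]
  split_ifs with h1 h2
  · obtain ⟨rfl, rfl⟩ := h1
    unfold PP
    have := p.Clam2
    simpa using this
  · obtain ⟨rfl, rfl⟩ := h2
    unfold PP
    have := p.Clameta
    simpa using this
  · exact le_rfl

theorem FF_le_QQ (p : Par0 h lam eta C) (r t : ℕ) : FF C lam eta r t ≤ QQ C lam eta r t := by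
  by_cases hrt : 2 ≤ r + t
  · rw [QQ_eq hrt]
    exact FF_le_PP p hrt
  · unfold QQ
    rw [if_pos (by omega)]
    unfold FF
    split_ifs with h1 h2 h3 h4 h5
    · exact le_rfl
    · norm_num
    · exact le_rfl
    · exact le_rfl
    · exact le_rfl
    · omega

theorem QQ_fresh (p : Par0 h lam eta C) (r t : ℕ) :
    QQ C lam eta (r + 1) t ≤ lam * QQ C lam eta r t := by
  have h3 := p.lam3
  by_cases hrt : 2 ≤ r + t
  · rw [QQ_eq hrt, QQ_eq (by omega)]
    unfold PP
    apply le_of_eq
    ring
  · by_cases hrt0 : r + t = 0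
    · unfold QQ
      rw [if_pos (by omega), if_pos (by omega)]
      linarith
    · rw [QQ_eq (by omega)]
      unfold QQ
      rw [if_pos (by omega)]
      rcases Nat.eq_zero_or_pos r with hr | hr
      · have ht : t = 1 := by omega
        subst hr ht
        unfold PP
        have := p.Ceta
        have h5 : C * lam ^ (0 + 1) * eta ^ 1 = lam * (C * eta) := by ring
        rw [h5]
        nlinarith
      · have hr1 : r = 1 := by omega
        have ht : t = 0 := by omega
        subst hr1 ht
        unfold PP
        have := p.Clam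
        have h5 : C * lam ^ (1 + 1) * eta ^ 0 = lam * (C * lam) := by ring
        rw [h5]
        nlinarith

theorem QQ_move (p : Par0 h lam eta C) (r t : ℕ) :
    2 * QQ C lam eta r (t + 1) ≤ (lam - 1) * QQ C lam eta (r + 1) t := by
  have h3 := p.lam3
  by_cases hrt0 : r + t = 0
  · unfold QQ
    rw [if_pos (by omega), if_pos (by omega)]
    linarith
  · rw [QQ_eq (by omega), QQ_eq (by omega)]
    unfold PP
    have h1 := p.C_pos
    have h4 : 0 < eta := by linarith [p.eta1]
    have h5 : 0 < lam := by linarith
    have h6 : 0 ≤ C * lam ^ r * eta ^ t := by positivity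
    have h7 := mul_le_mul_of_nonneg_left p.eta_lam h6
    have e1 : 2 * (C * lam ^ r * eta ^ (t + 1)) = C * lam ^ r * eta ^ t * (2 * eta) := by ring
    have e2 : (lam - 1) * (C * lam ^ (r + 1) * eta ^ t) =
        C * lam ^ r * eta ^ t * (lam * (lam - 1)) := by ring
    rw [e1, e2]
    exact h7

theorem QQ_drop (p : Par0 h lam eta C) (r t : ℕ) :
    QQ C lam eta r t ≤ QQ C lam eta (r + 1) t := by
  have h3 := p.lam3
  by_cases hrt : 2 ≤ r + t
  · rw [QQ_eq hrt, QQ_eq (by omega)]
    have h0 := PP_pos p r t
    have e : PP C lam eta (r + 1) t = lam * PP C lam eta r t := by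
      unfold PP
      ring
    rw [e]
    nlinarith
  · by_cases hrt0 : r + t = 0
    · unfold QQ
      rw [if_pos (by omega), if_pos (by omega)]
    · rw [QQ_eq (r := r + 1) (by omega)]
      unfold QQ
      rw [if_pos (by omega)]
      rcases Nat.eq_zero_or_pos r with hr | hr
      · have ht : t = 1 := by omega
        subst hr ht
        unfold PP
        have := p.Clameta
        simpa using this
      · have hr1 : r = 1 := by omega
        have ht : t = 0 := by omega
        subst hr1 ht
        unfold PP
        have := p.Clam2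
        simpa using this

end Pool.Agent.MP_74a55f_co.Blocks
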