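import Pool.Agent.Lib.MP_74a55f_blocks.Poly
import Pool.Agent.Lib.MP_74a55f_blocks.CfL
import Pool.Agent.Lib.MP_74a55f_blocks.FQ

/-!
# The induction hypothesis
-/

set_option autoImplicit false
set_option linter.unusedSectionVars false

open Finset

namespace Pool.Agent.MP_74a55f_co.Blocks

variable {V : Type} [Fintype V] [DecidableEq V]

/-- the induction hypothesis on `W` -/
def HA (G : SimpleGraph V) [DecidableRel G.Adj] (D : ℕ) (z : ℂ) (C lam eta : ℝ)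
    (W : Finset V) : Prop :=
  Z G W z ≠ 0 ∧ ∀ (R T : Finset V) (lab : V → V) (a : V), St G D W R T lab →
    ‖S G W ∅ a R T lab z‖ ≤ ‖Z G W z‖ * FF C lam eta R.card T.card

theorem al_pos {z : ℂ} {h : ℝ} (hb : Bg z h) : 0 < al z := by
  have h1 := hb.one
  have h2 := hb.h_pos
  by_contra h3
  push Not at h3
  nlinarith [mul_nonneg_of_nonpos_of_nonpos h3 (by linarith : -(1 + h) ≤ 0)]

theorem Bg.of_norm {z : ℂ} {h : ℝ} (hh : 0 < h) (hz : 1 + 1 / h ≤ ‖z‖) : Bg z h := by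
  have h1 : 0 < 1 / h := by positivity
  have hz0 : 0 < ‖z‖ := by linarith
  have hy : 0 < 1 / ‖z‖ := by positivity
  have hyz : 1 / ‖z‖ * ‖z‖ = 1 := by field_simp
  have hh1 : h * (1 / h) = 1 := by field_simp
  have h2 : h + 1 ≤ h * ‖z‖ := by nlinarith
  have h3 : (1 / ‖z‖) * (h + 1) ≤ h := by
    calc (1 / ‖z‖) * (h + 1) ≤ (1 / ‖z‖) * (h * ‖z‖) := by gcongr
      _ = h * (1 / ‖z‖ * ‖z‖) := by ring
      _ = h := by rw [hyz, mul_one]
  have h4 : 1 - 1 / ‖z‖ ≤ al z := by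
    have h5 : ‖(1 : ℂ)‖ - ‖1 / z‖ ≤ ‖1 - 1 / z‖ := norm_sub_norm_le _ _
    rw [norm_one, norm_div, norm_one] at h5
    exact h5
  refine ⟨norm_pos_iff.1 hz0, hh, ?_, ?_⟩
  · nlinarith
  · nlinarith

theorem norm_le_one_add {z : ℂ} {h : ℝ} (hb : Bg z h) (w : ℂ) :
    ‖1 / z * w‖ ≤ al z * h * ‖w‖ := by
  rw [norm_mul, norm_div, norm_one]
  exact mul_le_mul_of_nonneg_right hb.inv (norm_nonneg w)

end Pool.Agent.MP_74a55f_co.Blocks
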