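import Pool.Agent.Lib.MP_74a55f_blocks.IdA
import Pool.Agent.Lib.MP_74a55f_blocks.HA

/-!
# Refined bounds when the neighbours are outside `R ∪ T`
-/

set_option autoImplicit false
set_option linter.unusedSectionVars false

open Finset

namespace Pool.Agent.MP_74a55f_co.Blocks

variable {V : Type} [Fintype V] [DecidableEq V] {G : SimpleGraph V} [DecidableRel G.Adj] {D : ℕ}
  {W : Finset V} {z : ℂ} {h lam eta C : ℝ}

theorem bndB0 (p : Par0 h lam eta C) (hb : Bg z h) (hA : HA G D z C lam eta W) (N : Finset V)
    (a : V) (R T : Finset V) (lab : V → V) (hc : Cf G D W N a R T lab) (hNR : Disjoint N R)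
    (hNT : Disjoint N T) :
    ‖S G W N a R T lab z‖ ≤
      ‖Z G W z‖ * (al z ^ N.card * b0 h (FF C lam eta) N.card R.card T.card) := by
  induction N using Finset.induction_on generalizing R lab with
  | empty =>
    rw [card_empty, pow_zero, one_mul]
    exact hA.2 R T lab a hc.toSt
  | insert u N hu ih =>
    rw [disjoint_insert_left] at hNR hNT
    have huR := hNR.1
    have huT := hNT.1
    rw [I7 hb.ne hu huR huT]
    have e1 := ih R lab hc.sub hNR.2 hNT.2
    have e2 := ih (insert u R) (Function.update lab u a) (hc.fresh huT)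
      (disjoint_insert_right.2 ⟨hu, hNR.2⟩) hNT.2
    rw [card_insert_of_notMem huR] at e2
    rw [card_insert_of_notMem hu]
    have hal := al_pos hb
    have hh := hb.h_pos
    calc ‖(1 - 1 / z) * S G W N a R T lab z -
        1 / z * S G W N a (insert u R) T (Function.update lab u a) z‖
        ≤ ‖(1 - 1 / z) * S G W N a R T lab z‖ +
          ‖1 / z * S G W N a (insert u R) T (Function.update lab u a) z‖ := norm_sub_le _ _
      _ ≤ al z * ‖S G W N a R T lab z‖ +
          al z * h * ‖S G W N a (insert u R) T (Function.update lab u a) z‖ := by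
          refine add_le_add ?_ (norm_le_one_add hb _)
          rw [norm_mul, al]
      _ ≤ al z * (‖Z G W z‖ * (al z ^ N.card * b0 h (FF C lam eta) N.card R.card T.card)) +
          al z * h * (‖Z G W z‖ *
            (al z ^ N.card * b0 h (FF C lam eta) N.card (R.card + 1) T.card)) := by
          refine add_le_add (mul_le_mul_of_nonneg_left e1 hal.le) ?_
          exact mul_le_mul_of_nonneg_left e2 (by positivity)
      _ = ‖Z G W z‖ * (al z ^ (N.card + 1) *
            b0 h (FF C lam eta) (N.card + 1) R.card T.card) := by
          rw [b0]; ring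

theorem bndD0 (p : Par0 h lam eta C) (hb : Bg z h) (hA : HA G D z C lam eta W) (N : Finset V)
    (a : V) (R T : Finset V) (lab : V → V) (hc : Cf G D W N a R T lab) (hNR : Disjoint N R)
    (hNT : Disjoint N T) :
    ‖S G W N a R T lab z - (1 - 1 / z) ^ N.card * S G W ∅ a R T lab z‖ ≤
      ‖Z G W z‖ * (al z ^ N.card * d0 h (FF C lam eta) N.card R.card T.card) := by
  induction N using Finset.induction_on generalizing R lab with
  | empty =>
    rw [card_empty, pow_zero, one_mul, pow_zero, one_mul, sub_self, norm_zero, d0, mul_zero]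
  | insert u N hu ih =>
    rw [disjoint_insert_left] at hNR hNT
    have huR := hNR.1
    have huT := hNT.1
    rw [I7 hb.ne hu huR huT]
    have e1 := ih R lab hc.sub hNR.2 hNT.2
    have e2 := bndB0 p hb hA N a (insert u R) T (Function.update lab u a) (hc.fresh huT)
      (disjoint_insert_right.2 ⟨hu, hNR.2⟩) hNT.2
    rw [card_insert_of_notMem huR] at e2
    rw [card_insert_of_notMem hu]
    have hal := al_pos hb
    have hh := hb.h_pos
    calc ‖(1 - 1 / z) * S G W N a R T lab z -
        1 / z * S G W N a (insert u R) T (Function.update lab u a) z -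
        (1 - 1 / z) ^ (N.card + 1) * S G W ∅ a R T lab z‖
        = ‖(1 - 1 / z) * (S G W N a R T lab z - (1 - 1 / z) ^ N.card * S G W ∅ a R T lab z) -
          1 / z * S G W N a (insert u R) T (Function.update lab u a) z‖ := by
          congr 1; ring
      _ ≤ ‖(1 - 1 / z) * (S G W N a R T lab z - (1 - 1 / z) ^ N.card * S G W ∅ a R T lab z)‖ +
          ‖1 / z * S G W N a (insert u R) T (Function.update lab u a) z‖ := norm_sub_le _ _
      _ ≤ al z * ‖S G W N a R T lab z - (1 - 1 / z) ^ N.card * S G W ∅ a R T lab z‖ +
          al z * h * ‖S G W N a (insert u R) T (Function.update lab u a) z‖ := by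
          refine add_le_add ?_ (norm_le_one_add hb _)
          rw [norm_mul, al]
      _ ≤ al z * (‖Z G W z‖ * (al z ^ N.card * d0 h (FF C lam eta) N.card R.card T.card)) +
          al z * h * (‖Z G W z‖ *
            (al z ^ N.card * b0 h (FF C lam eta) N.card (R.card + 1) T.card)) := by
          refine add_le_add (mul_le_mul_of_nonneg_left e1 hal.le) ?_
          exact mul_le_mul_of_nonneg_left e2 (by positivity)
      _ = ‖Z G W z‖ * (al z ^ (N.card + 1) *
            d0 h (FF C lam eta) (N.card + 1) R.card T.card) := by
          rw [d0]; ring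

end Pool.Agent.MP_74a55f_co.Blocks
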