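import Pool.Agent.Lib.MP_74a55f_blocks.Poly

/-!
# A neighbour in `R ∪ T` with another label
-/

set_option autoImplicit false
set_option linter.unusedSectionVars false

open Finset Polynomial

namespace Pool.Agent.MP_74a55f_co.Blocks

variable {V : Type} [Fintype V] [DecidableEq V] {G : SimpleGraph V} [DecidableRel G.Adj]
  {W N R T : Finset V} {a : V} {lab : V → V} {z : ℂ}

namespace IdCAux

variable {n : ℕ}

/-- Summation over one coordinate. -/
theorem sum_coord {j : V} (hja : j ≠ a) (hn : 1 ≤ n) (g : (V → Fin n) → ℂ)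
    (hg : ∀ (σ : V → Fin n) (c : Fin n), g (Function.update σ j c) = g σ) :
    ∑ σ : V → Fin n, ((n : ℂ) * ind (σ j) (σ a)) * g σ = ∑ σ : V → Fin n, g σ := by
  rw [← (Equiv.funSplitAt j (Fin n)).symm.sum_comp, ← (Equiv.funSplitAt j (Fin n)).symm.sum_comp,
    Fintype.sum_prod_type_right, Fintype.sum_prod_type_right]
  refine Finset.sum_congr rfl fun τ _ => ?_
  have hc0 : ∃ c0 : Fin n, True := ⟨⟨0, hn⟩, trivial⟩
  obtain ⟨c0, _⟩ := hc0
  have e1 : ∀ c : Fin n, g ((Equiv.funSplitAt j (Fin n)).symm (c, τ))
      = g ((Equiv.funSplitAt j (Fin n)).symm (c0, τ)) := by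
    intro c
    have h1 : (Equiv.funSplitAt j (Fin n)).symm (c, τ)
        = Function.update ((Equiv.funSplitAt j (Fin n)).symm (c0, τ)) j c := by
      funext v
      by_cases hv : v = j
      · subst hv
        simp [Equiv.funSplitAt]
      · rw [Function.update_of_ne hv]
        simp [Equiv.funSplitAt, hv]
    rw [h1, hg]
  have e2 : ∀ c : Fin n, ((Equiv.funSplitAt j (Fin n)).symm (c, τ)) j = c := by
    intro c
    simp [Equiv.funSplitAt]
  have e3 : ∀ c : Fin n, ((Equiv.funSplitAt j (Fin n)).symm (c, τ)) a = τ ⟨a, hja.symm⟩ := by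
    intro c
    simp [Equiv.funSplitAt, hja.symm]
  simp_rw [e1, e2, e3]
  rw [← Finset.sum_mul, ← Finset.mul_sum]
  have e4 : ∑ c : Fin n, ind c (τ ⟨a, hja.symm⟩) = 1 := by
    simp [ind]
  rw [e4, Finset.sum_const, Finset.card_univ, Fintype.card_fin, nsmul_eq_mul, mul_one]

theorem trm_insN {u : V} (hu : u ∉ N) (σ : V → Fin n) :
    trm G W (insert u N) a R T lab σ = (1 - ind (σ u) (σ a)) * trm G W N a R T lab σ := by
  unfold trm
  rw [prod_insert hu]
  ring

theorem trm_eraseR {u : V} (hu : u ∈ R) (σ : V → Fin n) :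
    trm G W N a R T lab σ
      = ((n : ℂ) * ind (σ u) (σ (lab u)) - 1) * trm G W N a (R.erase u) T lab σ := by
  unfold trm
  rw [← mul_prod_erase R _ hu]
  ring

theorem trm_insT {u : V} (hu : u ∉ T) (σ : V → Fin n) :
    trm G W N a R (insert u T) lab σ
      = ((n : ℂ) * ind (σ u) (σ (lab u))) * trm G W N a R T lab σ := by
  unfold trm
  rw [prod_insert hu]
  ring

theorem trm_congr {lab' : V → V} (hR : ∀ v ∈ R, lab v = lab' v) (hT : ∀ v ∈ T, lab v = lab' v)
    (σ : V → Fin n) : trm G W N a R T lab σ = trm G W N a R T lab' σ := by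
  unfold trm
  congr 1
  · congr 1
    exact prod_congr rfl fun v hv => by rw [hR v hv]
  · exact prod_congr rfl fun v hv => by rw [hT v hv]

theorem trm_mrg {j : V} {σ : V → Fin n} (h : σ j = σ a) :
    trm G W N a R T lab σ = trm G W N a R T (mrg lab j a) σ := by
  have e : ∀ v, σ (lab v) = σ (mrg lab j a v) := by
    intro v
    unfold mrg
    split_ifs with h1
    · rw [h1, h]
    · rfl
  unfold trm
  simp_rw [e]

/-- Nothing depends on the colour of the merged label. -/
theorem trm_update {j : V} (hN : N ⊆ W) (hR : R ⊆ W) (hT : T ⊆ W) (hjW : j ∉ W) (hja : j ≠ a)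
    (σ : V → Fin n) (c : Fin n) :
    trm G W N a R T (mrg lab j a) (Function.update σ j c)
      = trm G W N a R T (mrg lab j a) σ := by
  have hne : ∀ v ∈ W, v ≠ j := fun v hv h => hjW (h ▸ hv)
  have hm : ∀ v, mrg lab j a v ≠ j := by
    intro v
    unfold mrg
    split_ifs with h
    · exact hja.symm
    · exact h
  have h1 : prp G W (Function.update σ j c) = prp G W σ := by
    unfold prp
    congr 1
    rw [eq_iff_iff]
    constructor
    · intro h u hu v hv huv
      have := h u hu v hv huv
      rwa [Function.update_of_ne (hne u hu), Function.update_of_ne (hne v hv)] at this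
    · intro h u hu v hv huv
      rw [Function.update_of_ne (hne u hu), Function.update_of_ne (hne v hv)]
      exact h u hu v hv huv
  unfold trm
  rw [h1]
  congr 1
  · congr 1
    · congr 1
      refine prod_congr rfl fun v hv => ?_
      rw [Function.update_of_ne (hne v (hN hv)), Function.update_of_ne hja.symm]
    · refine prod_congr rfl fun v hv => ?_
      rw [Function.update_of_ne (hne v (hR hv)), Function.update_of_ne (hm v)]
  · refine prod_congr rfl fun v hv => ?_
    rw [Function.update_of_ne (hne v (hT hv)), Function.update_of_ne (hm v)]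

/-- The core identity. -/
theorem core {j u : V} (hn : 1 ≤ n) (hN : N ⊆ W) (hR : R ⊆ W) (hT : T ⊆ W) (huW : u ∈ W)
    (hjW : j ∉ W) (hja : j ≠ a) :
    ∑ σ : V → Fin n, trm G W N a R T lab σ * (((n : ℂ) * ind (σ u) (σ a)) *
        ((n : ℂ) * ind (σ u) (σ j)))
      = ∑ σ : V → Fin n, trm G W N a R T (mrg lab j a) σ * ((n : ℂ) * ind (σ u) (σ a)) := by
  have huj : u ≠ j := fun h => hjW (h ▸ huW)
  rw [← sum_coord hja hn (fun σ => trm G W N a R T (mrg lab j a) σ * ((n : ℂ) * ind (σ u) (σ a)))]
  · refine Finset.sum_congr rfl fun σ _ => ?_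
    by_cases hua : σ u = σ a
    · by_cases hj : σ j = σ a
      · rw [trm_mrg (lab := lab) hj]
        have h1 : ind (σ u) (σ j) = ind (σ j) (σ a) := by
          simp [ind, hua, hj]
        rw [h1]
        ring
      · have h1 : ind (σ u) (σ j) = 0 := by
          rw [hua]
          simp [ind, Ne.symm hj]
        have h2 : ind (σ j) (σ a) = 0 := by
          simp [ind, hj]
        rw [h1, h2]
        ring
    · have h1 : ind (σ u) (σ a) = 0 := by
        simp [ind, hua]
      rw [h1]
      ring
  · intro σ c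
    show trm G W N a R T (mrg lab j a) (Function.update σ j c) * ((n : ℂ) *
      ind (Function.update σ j c u) (Function.update σ j c a)) = _
    rw [trm_update hN hR hT hjW hja, Function.update_of_ne huj, Function.update_of_ne hja.symm]

/-- `I8` for natural numbers. -/
theorem nat8 (hn : 1 ≤ n) (hN : N ⊆ W) (hR : R ⊆ W) (hT : T ⊆ W) {u : V} (huN : u ∉ N)
    (huR : u ∈ R) (huT : u ∉ T) (hl : lab u ≠ a) (hlW : lab u ∉ W) :
    (n : ℂ) * natS G W (insert u N) a R T lab n = (n : ℂ) * natS G W N a R T lab n +
      natS G W N a (R.erase u) (insert u T) (Function.update lab u a) n -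
      natS G W N a (R.erase u) (insert u T) (mrg lab (lab u) a) n := by
  have huW : u ∈ W := hR huR
  have hR' : R.erase u ⊆ W := (erase_subset u R).trans hR
  have h4 : natS G W N a (R.erase u) (insert u T) (mrg lab (lab u) a) n
      = ∑ σ : V → Fin n, trm G W N a (R.erase u) T lab σ * (((n : ℂ) * ind (σ u) (σ a)) *
        ((n : ℂ) * ind (σ u) (σ (lab u)))) := by
    rw [core hn hN hR' hT huW hlW hl]
    unfold natS
    refine Finset.sum_congr rfl fun σ _ => ?_
    rw [trm_insT huT]
    have : mrg lab (lab u) a u = a := by simp [mrg]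
    rw [this, mul_comm]
  have h3 : natS G W N a (R.erase u) (insert u T) (Function.update lab u a) n
      = ∑ σ : V → Fin n, ((n : ℂ) * ind (σ u) (σ a)) * trm G W N a (R.erase u) T lab σ := by
    unfold natS
    refine Finset.sum_congr rfl fun σ _ => ?_
    rw [trm_insT huT, Function.update_self]
    congr 1
    apply trm_congr
    · intro v hv
      rw [Function.update_of_ne (ne_of_mem_erase hv)]
    · intro v hv
      have hvu : v ≠ u := fun h => huT (h ▸ hv)
      rw [Function.update_of_ne hvu]
  rw [h3, h4]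
  unfold natS
  rw [Finset.mul_sum, Finset.mul_sum, ← Finset.sum_add_distrib, ← Finset.sum_sub_distrib]
  refine Finset.sum_congr rfl fun σ _ => ?_
  rw [trm_insN huN, trm_eraseR huR]
  ring

/-- `I9` for natural numbers. -/
theorem nat9 (hn : 1 ≤ n) (hN : N ⊆ W) (hR : R ⊆ W) (hT : T ⊆ W) {u : V} (huN : u ∉ N)
    (huT : u ∈ T) (hl : lab u ≠ a) (hlW : lab u ∉ W) :
    (n : ℂ) * natS G W (insert u N) a R T lab n = (n : ℂ) * natS G W N a R T lab n -
      natS G W N a R T (mrg lab (lab u) a) n := by
  have huW : u ∈ W := hT huT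
  have hT' : T.erase u ⊆ W := (erase_subset u T).trans hT
  have hins : insert u (T.erase u) = T := insert_erase huT
  have h4 : natS G W N a R T (mrg lab (lab u) a) n
      = ∑ σ : V → Fin n, trm G W N a R (T.erase u) lab σ * (((n : ℂ) * ind (σ u) (σ a)) *
        ((n : ℂ) * ind (σ u) (σ (lab u)))) := by
    rw [core hn hN hR hT' huW hlW hl]
    unfold natS
    refine Finset.sum_congr rfl fun σ _ => ?_
    have h := trm_insT (G := G) (W := W) (N := N) (a := a) (R := R) (T := T.erase u)
      (lab := mrg lab (lab u) a) (notMem_erase u T) σ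
    rw [hins] at h
    rw [h]
    have : mrg lab (lab u) a u = a := by simp [mrg]
    rw [this, mul_comm]
  rw [h4]
  unfold natS
  rw [Finset.mul_sum, Finset.mul_sum, ← Finset.sum_sub_distrib]
  refine Finset.sum_congr rfl fun σ _ => ?_
  have h := trm_insT (G := G) (W := W) (N := N) (a := a) (R := R) (T := T.erase u)
    (lab := lab) (notMem_erase u T) σ
  rw [hins] at h
  rw [trm_insN huN, h]
  ring

end IdCAux

open IdCAux

theorem I8 (hz : z ≠ 0) (hN : N ⊆ W) (hR : R ⊆ W) (hT : T ⊆ W) {u : V} (huN : u ∉ N)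
    (huR : u ∈ R) (huT : u ∉ T) (hl : lab u ≠ a) (hlW : lab u ∉ W) :
    S G W (insert u N) a R T lab z = S G W N a R T lab z +
      1 / z * S G W N a (R.erase u) (insert u T) (Function.update lab u a) z -
      1 / z * S G W N a (R.erase u) (insert u T) (mrg lab (lab u) a) z := by
  have h : X * pS G W (insert u N) a R T lab = X * pS G W N a R T lab +
      pS G W N a (R.erase u) (insert u T) (Function.update lab u a) -
      pS G W N a (R.erase u) (insert u T) (mrg lab (lab u) a) := by
    refine transfer fun n hn => ?_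
    simp only [eval_mul, eval_add, eval_sub, eval_X, pS_nat]
    exact nat8 hn hN hR hT huN huR huT hl hlW
  have h2 := congrArg (fun p => p.eval z) h
  simp only [eval_mul, eval_add, eval_sub, eval_X] at h2
  unfold S
  field_simp
  linear_combination h2

theorem I9 (hz : z ≠ 0) (hN : N ⊆ W) (hR : R ⊆ W) (hT : T ⊆ W) {u : V} (huN : u ∉ N)
    (huT : u ∈ T) (hl : lab u ≠ a) (hlW : lab u ∉ W) :
    S G W (insert u N) a R T lab z = S G W N a R T lab z -
      1 / z * S G W N a R T (mrg lab (lab u) a) z := by
  have h : X * pS G W (insert u N) a R T lab = X * pS G W N a R T lab -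
      pS G W N a R T (mrg lab (lab u) a) := by
    refine transfer fun n hn => ?_
    simp only [eval_mul, eval_sub, eval_X, pS_nat]
    exact nat9 hn hN hR hT huN huT hl hlW
  have h2 := congrArg (fun p => p.eval z) h
  simp only [eval_mul, eval_sub, eval_X] at h2
  unfold S
  field_simp
  linear_combination h2

end Pool.Agent.MP_74a55f_co.Blocks
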