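import Pool.Agent.Lib.MP_74a55f_blocks.IdA
import Pool.Agent.Lib.MP_74a55f_blocks.IdC
import Pool.Agent.Lib.MP_74a55f_blocks.HA

/-!
# The crude bound for configurations
-/

set_option autoImplicit false
set_option linter.unusedSectionVars false

open Finset

namespace Pool.Agent.MP_74a55f_co.Blocks

variable {V : Type} [Fintype V] [DecidableEq V] {G : SimpleGraph V} [DecidableRel G.Adj] {D : ℕ}
  {W : Finset V} {z : ℂ} {h lam eta C : ℝ}

namespace BndBAux

theorem norm_one_sub (z w : ℂ) : ‖(1 - 1 / z) * w‖ = al z * ‖w‖ := by
  rw [norm_mul]
  rfl

theorem le_one_add (hb : Bg z h) (w : ℂ) : ‖w‖ ≤ al z * (1 + h) * ‖w‖ := by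
  have h1 := mul_le_mul_of_nonneg_right hb.one (norm_nonneg w)
  rwa [one_mul] at h1

end BndBAux

open BndBAux

theorem bndB (p : Par0 h lam eta C) (hb : Bg z h) (hA : HA G D z C lam eta W) (N : Finset V)
    (a : V) (R T : Finset V) (lab : V → V) (hc : Cf G D W N a R T lab) :
    ‖S G W N a R T lab z‖ ≤
      ‖Z G W z‖ * (al z ^ N.card * ((1 + lam * h) ^ N.card * QQ C lam eta R.card T.card)) := by
  have hal := al_pos hb
  have hh := p.h_pos
  have hlam : 3 ≤ lam := p.lam3
  have hlam0 : 0 < lam := by linarith
  have hG1 : 0 < 1 + lam * h := by positivity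
  induction N using Finset.induction_on generalizing R T lab with
  | empty =>
    simp only [Finset.card_empty, pow_zero, one_mul]
    exact (hA.2 R T lab a hc.toSt).trans
      (mul_le_mul_of_nonneg_left (FF_le_QQ p _ _) (norm_nonneg _))
  | insert u N huN ih =>
    have huW : u ∈ W := hc.N_sub (Finset.mem_insert_self u N)
    have hcs := hc.sub
    set K : ℝ := ‖Z G W z‖ * (al z ^ N.card * (1 + lam * h) ^ N.card) with hK
    have hK0 : 0 ≤ K := by positivity
    have ih' : ∀ (R T : Finset V) (lab : V → V), Cf G D W N a R T lab →
        ‖S G W N a R T lab z‖ ≤ K * QQ C lam eta R.card T.card := by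
      intro R T lab hc'
      refine (ih R T lab hc').trans (le_of_eq ?_)
      rw [hK]
      ring
    rw [Finset.card_insert_of_notMem huN]
    have hgoal : ‖Z G W z‖ * (al z ^ (N.card + 1) * ((1 + lam * h) ^ (N.card + 1) *
        QQ C lam eta R.card T.card)) =
        al z * (K * ((1 + lam * h) * QQ C lam eta R.card T.card)) := by
      rw [hK]
      ring
    rw [hgoal]
    have hQ0 : 0 < QQ C lam eta R.card T.card := QQ_pos p _ _
    have hS := ih' R T lab hcs
    by_cases huR : u ∈ R
    · have huT : u ∉ T := fun ht => (Finset.disjoint_left.1 hc.disj huR) ht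
      have hcard : R.card = (R.erase u).card + 1 := (Finset.card_erase_add_one huR).symm
      by_cases hl : lab u = a
      · -- I10
        rw [I10 hb.ne huN huR hl]
        have h1 := ih' (R.erase u) T lab hcs.eraseR
        have h2 : ‖-(1 - 1 / z) * S G W N a (R.erase u) T lab z +
            1 / z * S G W N a R T lab z‖ ≤
            al z * ‖S G W N a (R.erase u) T lab z‖ + al z * h * ‖S G W N a R T lab z‖ := by
          refine (norm_add_le _ _).trans (add_le_add (le_of_eq ?_) (norm_le_one_add hb _))
          rw [neg_mul, norm_neg, norm_one_sub]
        have h3 : QQ C lam eta (R.erase u).card T.card ≤ QQ C lam eta R.card T.card := by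
          rw [hcard]
          exact QQ_drop p _ _
        calc _ ≤ al z * ‖S G W N a (R.erase u) T lab z‖ +
              al z * h * ‖S G W N a R T lab z‖ := h2
          _ ≤ al z * (K * QQ C lam eta R.card T.card) +
              al z * h * (K * QQ C lam eta R.card T.card) := by
              gcongr
              exact h1.trans (mul_le_mul_of_nonneg_left h3 hK0)
          _ = al z * (K * ((1 + h) * QQ C lam eta R.card T.card)) := by ring
          _ ≤ al z * (K * ((1 + lam * h) * QQ C lam eta R.card T.card)) := by
              gcongr
              nlinarith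
      · -- I8
        have hlW : lab u ∉ W := hc.labR u huR
        rw [I8 hb.ne hcs.N_sub hc.R_sub hc.T_sub huN huR huT hl hlW]
        have hmv := hcs.move huR
        have h1 := ih' (R.erase u) (insert u T) _ (hmv.upd (u := u))
        have h2 := ih' (R.erase u) (insert u T) _ (hmv.mrg (j := lab u))
        rw [Finset.card_insert_of_notMem huT] at h1 h2
        have h3 := QQ_move p (R.erase u).card T.card
        rw [← hcard] at h3
        set Q1 : ℝ := QQ C lam eta (R.erase u).card (T.card + 1) with hQ1
        set Q : ℝ := QQ C lam eta R.card T.card with hQ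
        calc _ ≤ ‖S G W N a R T lab z +
              1 / z * S G W N a (R.erase u) (insert u T) (Function.update lab u a) z‖ +
              ‖1 / z * S G W N a (R.erase u) (insert u T) (mrg lab (lab u) a) z‖ :=
              norm_sub_le _ _
          _ ≤ (‖S G W N a R T lab z‖ +
              ‖1 / z * S G W N a (R.erase u) (insert u T) (Function.update lab u a) z‖) +
              ‖1 / z * S G W N a (R.erase u) (insert u T) (mrg lab (lab u) a) z‖ := by
              gcongr
              exact norm_add_le _ _
          _ ≤ (al z * (1 + h) * (K * Q) + al z * h * (K * Q1)) + al z * h * (K * Q1) := by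
              gcongr
              · exact (le_one_add hb _).trans (by gcongr)
              · exact (norm_le_one_add hb _).trans (by gcongr)
              · exact (norm_le_one_add hb _).trans (by gcongr)
          _ = al z * (K * ((1 + h) * Q + h * (2 * Q1))) := by ring
          _ ≤ al z * (K * ((1 + h) * Q + h * ((lam - 1) * Q))) := by gcongr
          _ = al z * (K * ((1 + lam * h) * Q)) := by ring
    · by_cases huT : u ∈ T
      · by_cases hl : lab u = a
        · rw [I11 huN huT hl, norm_zero]
          positivity
        · have hlW : lab u ∉ W := hc.labT u huT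
          rw [I9 hb.ne hcs.N_sub hc.R_sub hc.T_sub huN huT hl hlW]
          have h2 := ih' R T _ (hcs.mrg (j := lab u))
          set Q : ℝ := QQ C lam eta R.card T.card with hQ
          calc _ ≤ ‖S G W N a R T lab z‖ + ‖1 / z * S G W N a R T (mrg lab (lab u) a) z‖ :=
                norm_sub_le _ _
            _ ≤ al z * (1 + h) * (K * Q) + al z * h * (K * Q) := by
                gcongr
                · exact (le_one_add hb _).trans (by gcongr)
                · exact (norm_le_one_add hb _).trans (by gcongr)
            _ = al z * (K * ((1 + 2 * h) * Q)) := by ring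
            _ ≤ al z * (K * ((1 + lam * h) * Q)) := by
                gcongr
                nlinarith
      · -- I7
        rw [I7 hb.ne huN huR huT]
        have h1 := ih' (insert u R) T _ (hc.fresh huT)
        rw [Finset.card_insert_of_notMem huR] at h1
        have h3 := QQ_fresh p R.card T.card
        set Q1 : ℝ := QQ C lam eta (R.card + 1) T.card with hQ1
        set Q : ℝ := QQ C lam eta R.card T.card with hQ
        calc _ ≤ ‖(1 - 1 / z) * S G W N a R T lab z‖ +
              ‖1 / z * S G W N a (insert u R) T (Function.update lab u a) z‖ :=
              norm_sub_le _ _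
          _ ≤ al z * (K * Q) + al z * h * (K * Q1) := by
              gcongr
              · rw [norm_one_sub]
                gcongr
              · exact (norm_le_one_add hb _).trans (by gcongr)
          _ = al z * (K * (Q + h * Q1)) := by ring
          _ ≤ al z * (K * (Q + h * (lam * Q))) := by gcongr
          _ = al z * (K * ((1 + lam * h) * Q)) := by ring

end Pool.Agent.MP_74a55f_co.Blocks
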