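import Pool.Agent.Lib.MP_74a55f_blocks.BndB

/-!
# The bound for differences
-/

set_option autoImplicit false
set_option linter.unusedSectionVars false

open Finset

namespace Pool.Agent.MP_74a55f_co.Blocks

variable {V : Type} [Fintype V] [DecidableEq V] {G : SimpleGraph V} [DecidableRel G.Adj] {D : ℕ}
  {W : Finset V} {z : ℂ} {h lam eta C : ℝ}

namespace BndDAux

theorem norm_pow_mul (z w : ℂ) (n : ℕ) : ‖(1 - 1 / z) ^ n * w‖ = al z ^ n * ‖w‖ := by
  rw [norm_mul, norm_pow]
  rfl

end BndDAux

open BndBAux BndDAux

/-- No vertex of `N` has label `a`. -/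
theorem bndD (p : Par0 h lam eta C) (hb : Bg z h) (hA : HA G D z C lam eta W) (N : Finset V)
    (a : V) (R T : Finset V) (lab : V → V) (hc : Cf G D W N a R T lab)
    (hNR : ∀ u ∈ N, u ∈ R → lab u ≠ a) (hNT : ∀ u ∈ N, u ∈ T → lab u ≠ a)
    (hrt : 2 ≤ R.card + T.card) :
    ‖S G W N a R T lab z - (1 - 1 / z) ^ N.card * S G W ∅ a R T lab z‖ ≤
      ‖Z G W z‖ * (al z ^ N.card *
        (PP C lam eta R.card T.card * ((1 + lam * h) ^ N.card - 1))) := by
  have hal := al_pos hb
  have hh := p.h_pos
  have hlam : 3 ≤ lam := p.lam3
  have hlam0 : 0 < lam := by linarith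
  have heta : 1 ≤ eta := p.eta1
  have hG1 : 1 ≤ 1 + lam * h := by nlinarith
  have hP := PP_pos p R.card T.card
  induction N using Finset.induction_on with
  | empty =>
    simp
  | insert u N huN ih =>
    have hcs := hc.sub
    have ih' := ih hcs (fun v hv => hNR v (Finset.mem_insert_of_mem hv))
      (fun v hv => hNT v (Finset.mem_insert_of_mem hv))
    rw [Finset.card_insert_of_notMem huN]
    set n : ℕ := N.card with hn
    set P : ℝ := PP C lam eta R.card T.card with hPdef
    set g : ℝ := (1 + lam * h) ^ n with hg
    have hg1 : 1 ≤ g := one_le_pow₀ hG1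
    set K : ℝ := ‖Z G W z‖ * al z ^ n with hK
    have hK0 : 0 ≤ K := by positivity
    set S0 : ℂ := S G W ∅ a R T lab z with hS0def
    set dif : ℂ := S G W N a R T lab z - (1 - 1 / z) ^ n * S0 with hdif
    have hdifb : ‖dif‖ ≤ K * (P * (g - 1)) := by
      refine ih'.trans (le_of_eq ?_)
      rw [hK]
      ring
    have hS0 : ‖(1 - 1 / z) ^ n * S0‖ ≤ K * P := by
      rw [norm_pow_mul]
      have h1 := hA.2 R T lab a hc.toSt
      have h2 : ‖S0‖ ≤ ‖Z G W z‖ * P :=
        h1.trans (mul_le_mul_of_nonneg_left (FF_le_PP p hrt) (norm_nonneg _))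
      calc al z ^ n * ‖S0‖ ≤ al z ^ n * (‖Z G W z‖ * P) := by gcongr
        _ = K * P := by rw [hK]; ring
    have hgoal : ‖Z G W z‖ * (al z ^ (n + 1) * (P * ((1 + lam * h) ^ (n + 1) - 1))) =
        al z * (K * (P * ((1 + lam * h) * g - 1))) := by
      rw [hK, hg]
      ring
    rw [hgoal]
    by_cases huR : u ∈ R
    · have huT : u ∉ T := fun ht => (Finset.disjoint_left.1 hc.disj huR) ht
      have hcard : R.card = (R.erase u).card + 1 := (Finset.card_erase_add_one huR).symm
      have hl : lab u ≠ a := hNR u (Finset.mem_insert_self u N) huR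
      have hlW : lab u ∉ W := hc.labR u huR
      rw [I8 hb.ne hcs.N_sub hc.R_sub hc.T_sub huN huR huT hl hlW]
      have hmv := hcs.move huR
      have h1 := bndB p hb hA N a (R.erase u) (insert u T) _ (hmv.upd (u := u))
      have h2 := bndB p hb hA N a (R.erase u) (insert u T) _ (hmv.mrg (j := lab u))
      have hc2 : 2 ≤ (R.erase u).card + (insert u T).card := by
        rw [Finset.card_insert_of_notMem huT]
        omega
      rw [QQ_eq hc2, Finset.card_insert_of_notMem huT] at h1 h2
      have hPe : PP C lam eta (R.erase u).card (T.card + 1) = P * (eta / lam) := by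
        rw [hPdef, hcard]
        unfold PP
        field_simp
        ring
      rw [hPe] at h1 h2
      set S1 : ℂ := S G W N a (R.erase u) (insert u T) (Function.update lab u a) z with hS1
      set S2 : ℂ := S G W N a (R.erase u) (insert u T) (mrg lab (lab u) a) z with hS2
      have h1' : ‖S1‖ ≤ K * (g * (P * (eta / lam))) := by
        refine h1.trans (le_of_eq ?_)
        rw [hK, hg]
        ring
      have h2' : ‖S2‖ ≤ K * (g * (P * (eta / lam))) := by
        refine h2.trans (le_of_eq ?_)
        rw [hK, hg]
        ring
      have heq : S G W N a R T lab z + 1 / z * S1 - 1 / z * S2 -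
          (1 - 1 / z) ^ (n + 1) * S0 =
          dif + 1 / z * ((1 - 1 / z) ^ n * S0) + 1 / z * S1 - 1 / z * S2 := by
        rw [hdif]
        ring
      rw [heq]
      have hel : 1 + 2 * (eta / lam) ≤ lam := by
        have h3 := p.eta_lam
        have h4 : 2 * (eta / lam) ≤ lam - 1 := by
          rw [← mul_div_assoc, div_le_iff₀ hlam0]
          linarith
        linarith
      calc _ ≤ ‖dif‖ + ‖1 / z * ((1 - 1 / z) ^ n * S0)‖ + ‖1 / z * S1‖ + ‖1 / z * S2‖ := by
            refine (norm_sub_le _ _).trans (add_le_add ?_ le_rfl)
            refine (norm_add_le _ _).trans (add_le_add ?_ le_rfl)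
            exact norm_add_le _ _
        _ ≤ al z * (1 + h) * (K * (P * (g - 1))) + al z * h * (K * P) +
            al z * h * (K * (g * (P * (eta / lam)))) +
            al z * h * (K * (g * (P * (eta / lam)))) := by
            gcongr
            · exact (le_one_add hb _).trans (by gcongr)
            · exact (norm_le_one_add hb _).trans (by gcongr)
            · exact (norm_le_one_add hb _).trans (by gcongr)
            · exact (norm_le_one_add hb _).trans (by gcongr)
        _ = al z * (K * (P * (g + h * g * (1 + 2 * (eta / lam)) - 1))) := by ring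
        _ ≤ al z * (K * (P * (g + h * g * lam - 1))) := by
            gcongr
        _ = al z * (K * (P * ((1 + lam * h) * g - 1))) := by ring
    · by_cases huT : u ∈ T
      · have hl : lab u ≠ a := hNT u (Finset.mem_insert_self u N) huT
        have hlW : lab u ∉ W := hc.labT u huT
        rw [I9 hb.ne hcs.N_sub hc.R_sub hc.T_sub huN huT hl hlW]
        have h2 := bndB p hb hA N a R T _ (hcs.mrg (j := lab u))
        rw [QQ_eq hrt] at h2
        set S2 : ℂ := S G W N a R T (mrg lab (lab u) a) z with hS2
        have h2' : ‖S2‖ ≤ K * (g * P) := by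
          refine h2.trans (le_of_eq ?_)
          rw [hK, hg]
          ring
        have heq : S G W N a R T lab z - 1 / z * S2 - (1 - 1 / z) ^ (n + 1) * S0 =
            dif + 1 / z * ((1 - 1 / z) ^ n * S0) - 1 / z * S2 := by
          rw [hdif]
          ring
        rw [heq]
        calc _ ≤ ‖dif‖ + ‖1 / z * ((1 - 1 / z) ^ n * S0)‖ + ‖1 / z * S2‖ := by
              refine (norm_sub_le _ _).trans (add_le_add ?_ le_rfl)
              exact norm_add_le _ _
          _ ≤ al z * (1 + h) * (K * (P * (g - 1))) + al z * h * (K * P) +
              al z * h * (K * (g * P)) := by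
              gcongr
              · exact (le_one_add hb _).trans (by gcongr)
              · exact (norm_le_one_add hb _).trans (by gcongr)
              · exact (norm_le_one_add hb _).trans (by gcongr)
          _ = al z * (K * (P * (g + h * g * 2 - 1))) := by ring
          _ ≤ al z * (K * (P * (g + h * g * lam - 1))) := by
              gcongr
              linarith
          _ = al z * (K * (P * ((1 + lam * h) * g - 1))) := by ring
      · rw [I7 hb.ne huN huR huT]
        have h1 := bndB p hb hA N a (insert u R) T _ (hc.fresh huT)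
        have hc2 : 2 ≤ (insert u R).card + T.card := by
          rw [Finset.card_insert_of_notMem huR]
          omega
        rw [QQ_eq hc2, Finset.card_insert_of_notMem huR] at h1
        have hPe : PP C lam eta (R.card + 1) T.card = P * lam := by
          rw [hPdef]
          unfold PP
          ring
        rw [hPe] at h1
        set S1 : ℂ := S G W N a (insert u R) T (Function.update lab u a) z with hS1
        have h1' : ‖S1‖ ≤ K * (g * (P * lam)) := by
          refine h1.trans (le_of_eq ?_)
          rw [hK, hg]
          ring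
        have heq : (1 - 1 / z) * S G W N a R T lab z - 1 / z * S1 -
            (1 - 1 / z) ^ (n + 1) * S0 = (1 - 1 / z) * dif - 1 / z * S1 := by
          rw [hdif]
          ring
        rw [heq]
        calc _ ≤ ‖(1 - 1 / z) * dif‖ + ‖1 / z * S1‖ := norm_sub_le _ _
          _ ≤ al z * (K * (P * (g - 1))) + al z * h * (K * (g * (P * lam))) := by
              gcongr
              · rw [norm_one_sub]
                gcongr
              · exact (norm_le_one_add hb _).trans (by gcongr)
          _ = al z * (K * (P * ((1 + lam * h) * g - 1))) := by ring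

end Pool.Agent.MP_74a55f_co.Blocks
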