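import Pool.Agent.Lib.MP_74a55f_blocks.BndE1

/-!
# The difference when the label `a` is not used
-/

set_option autoImplicit false
set_option linter.unusedSectionVars false

open Finset

namespace Pool.Agent.MP_74a55f_co.Blocks

variable {V : Type} [Fintype V] [DecidableEq V] {G : SimpleGraph V} [DecidableRel G.Adj] {D : ℕ}
  {W : Finset V} {z : ℂ} {h lam eta C tau : ℝ} {w : ℕ → ℝ}

namespace BndEAux

theorem w_nonneg (p : Par D h lam eta C tau w) {n : ℕ} (hn : n ≤ D) : 0 ≤ w n := by
  have h1 := p.p8a n hn
  have hlh : 0 ≤ lam * h := mul_nonneg (le_trans (by norm_num) p.lam3) p.h_pos.le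
  have h2 := one_add_mul_le_pow (R := ℝ) (a := lam * h) (by linarith) n
  nlinarith

/-- the numerical inequality -/
theorem num (p : Par D h lam eta C tau w) {r n : ℕ} (hn : n + 2 ≤ D) (hr : 2 ≤ r) :
    PP C lam eta (r - 1) 1 * ((1 + lam * h) ^ (n + 1) - 1) +
      (1 + lam * h) ^ n * (QQ C lam eta (r - 2) 1 + h * QQ C lam eta (r - 1) 1) +
      FF C lam eta (r - 1) 1 ≤
    PP C lam eta r 0 * (eta / lam * (1 + 1 / lam)) * (1 + lam * h) ^ (n + 1) := by
  have hlam : (0 : ℝ) < lam := lt_of_lt_of_le (by norm_num) p.lam3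
  obtain ⟨s, rfl⟩ : ∃ s, r = s + 2 := ⟨r - 2, by omega⟩
  have e1 : s + 2 - 1 = s + 1 := by omega
  have e2 : s + 2 - 2 = s := by omega
  rw [e1, e2]
  have hP : PP C lam eta (s + 2) 0 * (eta / lam * (1 + 1 / lam)) =
      PP C lam eta (s + 1) 1 * (1 + 1 / lam) := by
    unfold PP
    field_simp
    ring
  rw [hP]
  rcases Nat.eq_zero_or_pos s with rfl | hs
  · have h9 := p.p9 n hn
    have hF : FF C lam eta (0 + 1) 1 = 1 := by simp [FF]
    have hQ0 : QQ C lam eta 0 1 = 1 := by simp [QQ]
    have hQ1 : QQ C lam eta (0 + 1) 1 = C * lam * eta := by simp [QQ, PP]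
    have hP1 : PP C lam eta (0 + 1) 1 = C * lam * eta := by simp [PP]
    rw [hF, hQ0, hQ1, hP1, pow_succ]
    have e3 : C * lam * eta * (1 + 1 / lam) = C * lam * eta + C * eta := by
      field_simp
    rw [e3]
    nlinarith
  · have hF : FF C lam eta (s + 1) 1 = PP C lam eta (s + 1) 1 := FF_eq (by omega)
    have hQ0 : QQ C lam eta s 1 = PP C lam eta s 1 := QQ_eq (by omega)
    have hQ1 : QQ C lam eta (s + 1) 1 = PP C lam eta (s + 1) 1 := QQ_eq (by omega)
    have hP1 : PP C lam eta (s + 1) 1 = lam * PP C lam eta s 1 := by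
      unfold PP
      ring
    rw [hF, hQ0, hQ1, hP1, pow_succ]
    have e3 : lam * PP C lam eta s 1 * (1 + 1 / lam) = (lam + 1) * PP C lam eta s 1 := by
      field_simp
    rw [e3]
    apply le_of_eq
    ring

end BndEAux

open BndEAux

theorem bndE (p : Par D h lam eta C tau w) (hb : Bg z h) (hA : HA G D z C lam eta W)
    (N : Finset V) (a : V) (R : Finset V) (lab : V → V) (hc : Cf G D W N a R ∅ lab)
    (hl : ∀ v ∈ R, lab v ≠ a) (hr : 2 ≤ R.card) (hN : N.card ≤ D) :
    ‖S G W N a R ∅ lab z - (1 - 1 / z) ^ N.card * S G W ∅ a R ∅ lab z‖ ≤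
      ‖Z G W z‖ * (al z ^ N.card * (PP C lam eta R.card 0 * w N.card)) := by
  induction N using Finset.strongInduction with
  | H N ih =>
    have hlh : 0 ≤ lam * h := mul_nonneg (le_trans (by norm_num) p.lam3) p.h_pos.le
    have hZ : 0 ≤ ‖Z G W z‖ := norm_nonneg _
    have hal : 0 < al z := al_pos hb
    have hPr := PP_pos p.toPar0 R.card 0
    by_cases hinj : ∀ u ∈ N, ∀ v ∈ N, u ∈ R → v ∈ R → lab u = lab v → u = v
    · refine (bndE1 p.toPar0 hb hA N a R lab hc hl hr hinj).trans ?_
      refine mul_le_mul_of_nonneg_left ?_ hZ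
      refine mul_le_mul_of_nonneg_left ?_ (pow_nonneg hal.le _)
      exact mul_le_mul_of_nonneg_left (p.p8a _ hN) hPr.le
    · push Not at hinj
      obtain ⟨u, huN, v, hvN, huR, hvR, hlab, huv⟩ := hinj
      obtain ⟨N', huN', rfl⟩ : ∃ N', u ∉ N' ∧ N = insert u N' :=
        ⟨N.erase u, notMem_erase u N, (insert_erase huN).symm⟩
      have hvN' : v ∈ N' := (mem_insert.1 hvN).resolve_left (fun e => huv e.symm)
      obtain ⟨N'', hvN'', rfl⟩ : ∃ N'', v ∉ N'' ∧ N' = insert v N'' :=
        ⟨N'.erase v, notMem_erase v N', (insert_erase hvN').symm⟩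
      set n := N''.card with hn
      have hn' : (insert v N'').card = n + 1 := card_insert_of_notMem hvN''
      have hn1 : (insert u (insert v N'')).card = n + 2 := by
        rw [card_insert_of_notMem huN', hn']
      rw [hn1] at hN
      have hcs := hc.sub
      have hIH := ih (insert v N'') (ssubset_insert huN') hcs (by rw [hn']; omega)
      rw [hn'] at hIH
      have hcard : (R.erase u).card = R.card - 1 := card_erase_of_mem huR
      have hvRu : v ∈ R.erase u := mem_erase.2 ⟨fun e => huv e.symm, hvR⟩
      have hcard2 : ((R.erase u).erase v).card = R.card - 2 := by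
        rw [card_erase_of_mem hvRu, hcard]
        omega
      have hmv := hcs.move huR
      rw [insert_empty_eq] at hmv
      -- first bracket
      have hD := bndD p.toPar0 hb hA (insert v N'') a (R.erase u) {u}
        (Function.update lab u a) (hmv.upd (u := u))
        (fun x _ hx => by
          rw [Function.update_of_ne (ne_of_mem_erase hx)]
          exact hl x (mem_of_mem_erase hx))
        (fun x hx hxu => by
          rw [mem_singleton] at hxu
          exact absurd (hxu ▸ hx) huN')
        (by rw [hcard, card_singleton]; omega)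
      rw [hn', hcard, card_singleton] at hD
      -- second bracket
      have hcm := hmv.mrg (j := lab u)
      have hlv : mrg lab (lab u) a v = a := by
        unfold mrg
        rw [if_pos hlab.symm]
      have h10 := I10 (G := G) (W := W) (T := {u}) hb.ne hvN'' hvRu hlv
      have hB1 := bndB p.toPar0 hb hA N'' a ((R.erase u).erase v) {u}
        (mrg lab (lab u) a) hcm.sub.eraseR
      have hB2 := bndB p.toPar0 hb hA N'' a (R.erase u) {u}
        (mrg lab (lab u) a) hcm.sub
      have hB3 := hA.2 (R.erase u) {u} (mrg lab (lab u) a) a hcm.toSt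
      rw [hcard2, card_singleton, ← hn] at hB1
      rw [hcard, card_singleton, ← hn] at hB2
      rw [hcard, card_singleton] at hB3
      set X := ‖Z G W z‖ * al z ^ (n + 1) with hX
      have hX0 : 0 ≤ X := mul_nonneg hZ (pow_nonneg hal.le _)
      set s2 := S G W (insert v N'') a (R.erase u) {u} (mrg lab (lab u) a) z with hs2
      set s20 := S G W ∅ a (R.erase u) {u} (mrg lab (lab u) a) z with hs20
      have h2 : ‖s2‖ ≤ X * ((1 + lam * h) ^ n *
          (QQ C lam eta (R.card - 2) 1 + h * QQ C lam eta (R.card - 1) 1)) := by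
        rw [h10]
        refine (norm_add_le _ _).trans ?_
        have e1 : ‖-(1 - 1 / z) * S G W N'' a ((R.erase u).erase v) {u} (mrg lab (lab u) a) z‖ ≤
            al z * (‖Z G W z‖ * (al z ^ n * ((1 + lam * h) ^ n *
              QQ C lam eta (R.card - 2) 1))) := by
          rw [norm_mul, norm_neg]
          exact mul_le_mul_of_nonneg_left hB1 hal.le
        have e2 : ‖1 / z * S G W N'' a (R.erase u) {u} (mrg lab (lab u) a) z‖ ≤
            al z * h * (‖Z G W z‖ * (al z ^ n * ((1 + lam * h) ^ n *
              QQ C lam eta (R.card - 1) 1))) := by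
          refine (norm_le_one_add hb _).trans ?_
          exact mul_le_mul_of_nonneg_left hB2 (mul_nonneg hal.le p.h_pos.le)
        refine (add_le_add e1 e2).trans (le_of_eq ?_)
        rw [hX, pow_succ]
        ring
      have h20 : ‖(1 - 1 / z) ^ (n + 1) * s20‖ ≤ X * FF C lam eta (R.card - 1) 1 := by
        rw [norm_mul, norm_pow]
        have e1 : al z ^ (n + 1) * ‖s20‖ ≤
            al z ^ (n + 1) * (‖Z G W z‖ * FF C lam eta (R.card - 1) 1) :=
          mul_le_mul_of_nonneg_left hB3 (pow_nonneg hal.le _)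
        refine le_trans e1 (le_of_eq ?_)
        rw [hX]
        ring
      have hb2 : ‖s2 - (1 - 1 / z) ^ (n + 1) * s20‖ ≤ X * ((1 + lam * h) ^ n *
          (QQ C lam eta (R.card - 2) 1 + h * QQ C lam eta (R.card - 1) 1)) +
          X * FF C lam eta (R.card - 1) 1 :=
        (norm_sub_le _ _).trans (add_le_add h2 h20)
      -- the sum
      have hsp := split1 (G := G) (W := W) (a := a) hb.ne hcs.N_sub hc.R_sub huN' huR
        (hc.labR u huR) hc.a_out hl
      rw [hn1]
      rw [hn'] at hsp
      have e3 : n + 2 = n + 1 + 1 := rfl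
      rw [e3, hsp]
      refine (norm_sub_le _ _).trans ?_
      have t1 : ‖S G W (insert v N'') a R ∅ lab z -
          (1 - 1 / z) ^ (n + 1) * S G W ∅ a R ∅ lab z‖ ≤
          al z * X * ((1 + h) * (PP C lam eta R.card 0 * w (n + 1))) := by
        refine hIH.trans ?_
        have hw := w_nonneg p (n := n + 1) (by omega)
        have e4 : ‖Z G W z‖ * (al z ^ (n + 1) * (PP C lam eta R.card 0 * w (n + 1))) =
            X * (PP C lam eta R.card 0 * w (n + 1)) := by
          rw [hX]
          ring
        rw [e4]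
        have e5 : 0 ≤ X * (PP C lam eta R.card 0 * w (n + 1)) :=
          mul_nonneg hX0 (mul_nonneg hPr.le hw)
        have e6 := mul_le_mul_of_nonneg_right hb.one e5
        rw [one_mul] at e6
        refine e6.trans (le_of_eq ?_)
        ring
      have t2 : ‖1 / z * (S G W (insert v N'') a (R.erase u) {u} (Function.update lab u a) z -
          (1 - 1 / z) ^ (n + 1) * S G W ∅ a (R.erase u) {u} (Function.update lab u a) z)‖ ≤
          al z * h * (X * (PP C lam eta (R.card - 1) 1 * ((1 + lam * h) ^ (n + 1) - 1))) := by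
        refine (norm_le_one_add hb _).trans ?_
        refine mul_le_mul_of_nonneg_left (hD.trans (le_of_eq ?_)) (mul_nonneg hal.le p.h_pos.le)
        rw [hX]
        ring
      have t3 : ‖1 / z * (s2 - (1 - 1 / z) ^ (n + 1) * s20)‖ ≤
          al z * h * (X * ((1 + lam * h) ^ n *
          (QQ C lam eta (R.card - 2) 1 + h * QQ C lam eta (R.card - 1) 1)) +
          X * FF C lam eta (R.card - 1) 1) :=
        (norm_le_one_add hb _).trans
          (mul_le_mul_of_nonneg_left hb2 (mul_nonneg hal.le p.h_pos.le))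
      refine (add_le_add ((norm_add_le _ _).trans (add_le_add t1 t2)) t3).trans ?_
      have hnum := num p (r := R.card) hN hr
      have h8 := p.p8b (n + 1) (by omega) (by omega)
      have hfin : (1 + h) * (PP C lam eta R.card 0 * w (n + 1)) +
          h * (PP C lam eta (R.card - 1) 1 * ((1 + lam * h) ^ (n + 1) - 1) +
            (1 + lam * h) ^ n * (QQ C lam eta (R.card - 2) 1 + h * QQ C lam eta (R.card - 1) 1) +
            FF C lam eta (R.card - 1) 1) ≤ PP C lam eta R.card 0 * w (n + 1 + 1) := by
        have e7 := mul_le_mul_of_nonneg_left hnum p.h_pos.le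
        have e8 := mul_le_mul_of_nonneg_left h8 hPr.le
        refine (add_le_add le_rfl e7).trans ((le_of_eq ?_).trans e8)
        ring
      have e9 := mul_le_mul_of_nonneg_left hfin (mul_nonneg hal.le hX0)
      refine (le_of_eq ?_).trans (e9.trans (le_of_eq ?_))
      · ring
      · rw [hX, pow_succ (al z) (n + 1)]
        ring

end Pool.Agent.MP_74a55f_co.Blocks
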