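import Pool.Agent.Lib.MP_74a55f_blocks.Poly

/-!
# Labels used once, and renaming of labels
-/

set_option autoImplicit false
set_option linter.unusedSectionVars false

open Finset Polynomial

namespace Pool.Agent.MP_74a55f_co.Blocks

variable {V : Type} [Fintype V] [DecidableEq V] {G : SimpleGraph V} [DecidableRel G.Adj]
  {W N R T : Finset V} {a : V} {lab : V → V} {z : ℂ}

namespace IdDAux

/-- exchange of a coordinate -/
def exch (j : V) (n : ℕ) : Equiv.Perm ((V → Fin n) × Fin n) where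
  toFun p := (Function.update p.1 j p.2, p.1 j)
  invFun p := (Function.update p.1 j p.2, p.1 j)
  left_inv p := by simp
  right_inv p := by simp

/-- summation over one more coordinate -/
theorem sum_update {n : ℕ} (j : V) (f : (V → Fin n) → ℂ) :
    ∑ σ : V → Fin n, ∑ c : Fin n, f (Function.update σ j c) = n * ∑ σ : V → Fin n, f σ := by
  have h1 := Equiv.sum_comp (exch j n) (fun p : (V → Fin n) × Fin n => f p.1)
  rw [Fintype.sum_prod_type, Fintype.sum_prod_type] at h1
  simp only [exch, Equiv.coe_fn_mk] at h1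
  rw [h1, Finset.mul_sum]
  simp

theorem prp_update {n : ℕ} {j : V} (hj : j ∉ W) (σ : V → Fin n) (c : Fin n) :
    prp G W (Function.update σ j c) = prp G W σ := by
  unfold prp
  have h : (∀ u ∈ W, ∀ v ∈ W, G.Adj u v → Function.update σ j c u ≠ Function.update σ j c v) ↔
      (∀ u ∈ W, ∀ v ∈ W, G.Adj u v → σ u ≠ σ v) := by
    refine forall₂_congr fun u hu => forall₂_congr fun v hv => ?_
    have e1 : u ≠ j := fun h => hj (h ▸ hu)
    have e2 : v ≠ j := fun h => hj (h ▸ hv)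
    rw [Function.update_of_ne e1, Function.update_of_ne e2]
  simp only [h]

theorem prodN_update {n : ℕ} {j : V} (hj : j ∉ W) (hN : N ⊆ W) (ha : N = ∅ ∨ j ≠ a)
    (σ : V → Fin n) (c : Fin n) :
    ∏ u ∈ N, (1 - ind (Function.update σ j c u) (Function.update σ j c a)) =
      ∏ u ∈ N, (1 - ind (σ u) (σ a)) := by
  rcases ha with rfl | ha
  · simp
  · refine Finset.prod_congr rfl fun u hu => ?_
    have e1 : u ≠ j := fun h => hj (h ▸ hN hu)
    rw [Function.update_of_ne e1, Function.update_of_ne ha.symm]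

theorem prodR_update {n : ℕ} {j : V} (hj : j ∉ W) (hR : R ⊆ W) (h : ∀ v ∈ R, lab v ≠ j)
    (σ : V → Fin n) (c : Fin n) :
    ∏ v ∈ R, ((n : ℂ) * ind (Function.update σ j c v) (Function.update σ j c (lab v)) - 1) =
      ∏ v ∈ R, ((n : ℂ) * ind (σ v) (σ (lab v)) - 1) := by
  refine Finset.prod_congr rfl fun u hu => ?_
  have e1 : u ≠ j := fun h => hj (h ▸ hR hu)
  rw [Function.update_of_ne e1, Function.update_of_ne (h u hu)]

theorem prodT_update {n : ℕ} {j : V} (hj : j ∉ W) (hT : T ⊆ W) (h : ∀ v ∈ T, lab v ≠ j)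
    (σ : V → Fin n) (c : Fin n) :
    ∏ v ∈ T, ((n : ℂ) * ind (Function.update σ j c v) (Function.update σ j c (lab v))) =
      ∏ v ∈ T, ((n : ℂ) * ind (σ v) (σ (lab v))) := by
  refine Finset.prod_congr rfl fun u hu => ?_
  have e1 : u ≠ j := fun h => hj (h ▸ hT hu)
  rw [Function.update_of_ne e1, Function.update_of_ne (h u hu)]

theorem sum_ind {n : ℕ} (x : Fin n) : ∑ c : Fin n, ind x c = 1 := by
  simp [ind]

theorem natS_R (hN : N ⊆ W) (hR : R ⊆ W) (hT : T ⊆ W) {u : V} (huR : u ∈ R)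
    (hlW : lab u ∉ W) (ha : N = ∅ ∨ lab u ≠ a) (h1 : ∀ v ∈ R, v ≠ u → lab v ≠ lab u)
    (h2 : ∀ v ∈ T, lab v ≠ lab u) {n : ℕ} (hn : 1 ≤ n) : natS G W N a R T lab n = 0 := by
  have hn0 : (n : ℂ) ≠ 0 := by exact_mod_cast (by omega : n ≠ 0)
  have key := sum_update (lab u) (fun σ : V → Fin n => trm G W N a R T lab σ)
  have h3 : ∀ (σ : V → Fin n) (c : Fin n), trm G W N a R T lab (Function.update σ (lab u) c) =
      (prp G W σ * (∏ u ∈ N, (1 - ind (σ u) (σ a))) *
        (∏ v ∈ R.erase u, ((n : ℂ) * ind (σ v) (σ (lab v)) - 1)) *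
        ∏ v ∈ T, ((n : ℂ) * ind (σ v) (σ (lab v)))) * ((n : ℂ) * ind (σ u) c - 1) := by
    intro σ c
    have e1 : u ≠ lab u := fun h => hlW (h ▸ hR huR)
    unfold trm
    rw [prp_update hlW, prodN_update hlW hN ha, prodT_update hlW hT h2,
      ← Finset.mul_prod_erase R _ huR,
      prodR_update hlW ((Finset.erase_subset u R).trans hR)
        (fun v hv => h1 v (Finset.mem_of_mem_erase hv) (Finset.ne_of_mem_erase hv)),
      Function.update_self, Function.update_of_ne e1]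
    ring
  simp_rw [h3, ← Finset.mul_sum, Finset.sum_sub_distrib, ← Finset.mul_sum, sum_ind] at key
  have h4 : (n : ℂ) * 1 - ∑ _c : Fin n, (1 : ℂ) = 0 := by simp
  rw [h4] at key
  simp only [mul_zero, Finset.sum_const_zero] at key
  exact (mul_eq_zero.1 key.symm).resolve_left hn0

theorem natS_T (hN : N ⊆ W) (hR : R ⊆ W) (hT : T ⊆ W) {u : V} (huT : u ∈ T)
    (hlW : lab u ∉ W) (ha : N = ∅ ∨ lab u ≠ a) (h1 : ∀ v ∈ R, lab v ≠ lab u)
    (h2 : ∀ v ∈ T, v ≠ u → lab v ≠ lab u) {n : ℕ} (hn : 1 ≤ n) :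
    natS G W N a R T lab n = natS G W N a R (T.erase u) lab n := by
  have hn0 : (n : ℂ) ≠ 0 := by exact_mod_cast (by omega : n ≠ 0)
  have key := sum_update (lab u) (fun σ : V → Fin n => trm G W N a R T lab σ)
  have h3 : ∀ (σ : V → Fin n) (c : Fin n), trm G W N a R T lab (Function.update σ (lab u) c) =
      trm G W N a R (T.erase u) lab σ * ((n : ℂ) * ind (σ u) c) := by
    intro σ c
    have e1 : u ≠ lab u := fun h => hlW (h ▸ hT huT)
    unfold trm
    rw [prp_update hlW, prodN_update hlW hN ha, prodR_update hlW hR h1,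
      ← Finset.mul_prod_erase T _ huT,
      prodT_update hlW ((Finset.erase_subset u T).trans hT)
        (fun v hv => h2 v (Finset.mem_of_mem_erase hv) (Finset.ne_of_mem_erase hv)),
      Function.update_self, Function.update_of_ne e1]
    ring
  simp_rw [h3, ← Finset.mul_sum, sum_ind, mul_one, ← Finset.sum_mul] at key
  unfold natS
  rw [mul_comm] at key
  exact (mul_left_cancel₀ hn0 key).symm

theorem natS_rename (hR : R ⊆ W) (hT : T ⊆ W) {j b c : V} (hj : j ∉ W) (hc : c ∉ W)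
    (h1 : ∀ v ∈ R, lab v ≠ c) (h2 : ∀ v ∈ T, lab v ≠ c) (n : ℕ) :
    natS G W ∅ b R T (mrg lab j c) n = natS G W ∅ b R T lab n := by
  unfold natS
  rw [← Equiv.sum_comp ((Equiv.swap j c).arrowCongr (Equiv.refl (Fin n)))
    (fun σ : V → Fin n => trm G W ∅ b R T lab σ)]
  refine Finset.sum_congr rfl fun σ _ => ?_
  have e1 : ∀ v, ((Equiv.swap j c).arrowCongr (Equiv.refl (Fin n))) σ v =
      σ (Equiv.swap j c v) := fun v => by simp [Equiv.arrowCongr]
  have e2 : ∀ v ∈ W, Equiv.swap j c v = v := fun v hv =>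
    Equiv.swap_apply_of_ne_of_ne (fun h => hj (h ▸ hv)) (fun h => hc (h ▸ hv))
  have e3 : ∀ v, lab v ≠ c → Equiv.swap j c (lab v) = mrg lab j c v := fun v hv => by
    unfold mrg
    split_ifs with h
    · rw [h, Equiv.swap_apply_left]
    · rw [Equiv.swap_apply_of_ne_of_ne h hv]
  unfold trm
  congr 1
  · congr 1
    · congr 1
      unfold prp
      have h : (∀ u ∈ W, ∀ v ∈ W, G.Adj u v →
          ((Equiv.swap j c).arrowCongr (Equiv.refl (Fin n))) σ u ≠
            ((Equiv.swap j c).arrowCongr (Equiv.refl (Fin n))) σ v) ↔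
          (∀ u ∈ W, ∀ v ∈ W, G.Adj u v → σ u ≠ σ v) := by
        refine forall₂_congr fun u hu => forall₂_congr fun v hv => ?_
        rw [e1, e1, e2 u hu, e2 v hv]
      simp only [h]
    · refine Finset.prod_congr rfl fun v hv => ?_
      rw [e1, e1, e2 v (hR hv), e3 v (h1 v hv)]
  · refine Finset.prod_congr rfl fun v hv => ?_
    rw [e1, e1, e2 v (hT hv), e3 v (h2 v hv)]

end IdDAux

open IdDAux

/-- a label used by exactly one vertex, which is in `R` -/
theorem I12R (hN : N ⊆ W) (hR : R ⊆ W) (hT : T ⊆ W) {u : V} (huR : u ∈ R) (huT : u ∉ T)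
    (hlW : lab u ∉ W) (ha : N = ∅ ∨ lab u ≠ a) (h1 : ∀ v ∈ R, v ≠ u → lab v ≠ lab u)
    (h2 : ∀ v ∈ T, lab v ≠ lab u) : S G W N a R T lab z = 0 := by
  have h : pS G W N a R T lab = 0 := transfer fun n hn => by
    rw [pS_nat, natS_R hN hR hT huR hlW ha h1 h2 hn, Polynomial.eval_zero]
  unfold S
  rw [h, Polynomial.eval_zero]

/-- a label used by exactly one vertex, which is in `T` -/
theorem I12T (hN : N ⊆ W) (hR : R ⊆ W) (hT : T ⊆ W) {u : V} (huR : u ∉ R) (huT : u ∈ T)
    (hlW : lab u ∉ W) (ha : N = ∅ ∨ lab u ≠ a) (h1 : ∀ v ∈ R, lab v ≠ lab u)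
    (h2 : ∀ v ∈ T, v ≠ u → lab v ≠ lab u) :
    S G W N a R T lab z = S G W N a R (T.erase u) lab z := by
  have h : pS G W N a R T lab = pS G W N a R (T.erase u) lab := transfer fun n hn => by
    rw [pS_nat, pS_nat, natS_T hN hR hT huT hlW ha h1 h2 hn]
  unfold S
  rw [h]

/-- renaming of a label -/
theorem S_rename (hR : R ⊆ W) (hT : T ⊆ W) {j b c : V} (hj : j ∉ W) (hc : c ∉ W)
    (h1 : ∀ v ∈ R, lab v ≠ c) (h2 : ∀ v ∈ T, lab v ≠ c) :
    S G W ∅ b R T (mrg lab j c) z = S G W ∅ b R T lab z := by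
  have h : pS G W ∅ b R T (mrg lab j c) = pS G W ∅ b R T lab := transfer fun n _ => by
    rw [pS_nat, pS_nat, natS_rename hR hT hj hc h1 h2 n]
  unfold S
  rw [h]

end Pool.Agent.MP_74a55f_co.Blocks
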