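import Pool.Agent.Lib.MP_74a55f_blocks.IdA
import Pool.Agent.Lib.MP_74a55f_blocks.IdC
import Pool.Agent.Lib.MP_74a55f_blocks.IdD

/-!
# The step for the difference when the label `a` is not used
-/

set_option autoImplicit false
set_option linter.unusedSectionVars false

open Finset

namespace Pool.Agent.MP_74a55f_co.Blocks

variable {V : Type} [Fintype V] [DecidableEq V] {G : SimpleGraph V} [DecidableRel G.Adj] {D : ℕ}
  {W N R : Finset V} {a : V} {lab : V → V} {z : ℂ}

theorem split0 (hR : R ⊆ W) {u : V} (huR : u ∈ R) (huW : lab u ∉ W) (ha : a ∉ W)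
    (hl : ∀ v ∈ R, lab v ≠ a) (b : V) :
    S G W ∅ b R ∅ lab z = S G W ∅ b (R.erase u) {u} (mrg lab (lab u) a) z -
      S G W ∅ b (R.erase u) {u} (Function.update lab u a) z := by
  have huW' : u ∈ W := hR huR
  have hRe : R.erase u ⊆ W := (Finset.erase_subset u R).trans hR
  have hT : ({u} : Finset V) ⊆ W := Finset.singleton_subset_iff.2 huW'
  have e1 : S G W ∅ b (R.erase u) {u} (mrg lab (lab u) a) z = S G W ∅ b (R.erase u) {u} lab z := by
    refine S_rename hRe hT huW ha ?_ ?_
    · intro v hv
      exact hl v (Finset.mem_of_mem_erase hv)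
    · intro v hv
      rw [Finset.mem_singleton.1 hv]
      exact hl u huR
  have e2 : S G W ∅ b (R.erase u) {u} lab z =
      S G W ∅ b R ∅ lab z + S G W ∅ b (R.erase u) ∅ lab z := by
    have h := I13 (G := G) (W := W) (N := ∅) (R := R.erase u) (T := {u}) (a := b) (lab := lab)
      (z := z) (v := u) (Finset.mem_singleton_self u) (Finset.notMem_erase u R)
    rw [Finset.insert_erase huR, Finset.erase_singleton] at h
    exact h
  have e3 : S G W ∅ b (R.erase u) {u} (Function.update lab u a) z =
      S G W ∅ b (R.erase u) ∅ lab z := by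
    have h := I12T (G := G) (W := W) (N := ∅) (R := R.erase u) (T := {u}) (a := b)
      (lab := Function.update lab u a) (z := z) (Finset.empty_subset W) hRe hT (u := u)
      (Finset.notMem_erase u R) (Finset.mem_singleton_self u)
      (by rw [Function.update_self]; exact ha) (Or.inl rfl)
      (by
        intro v hv
        rw [Function.update_self, Function.update_of_ne (Finset.ne_of_mem_erase hv)]
        exact hl v (Finset.mem_of_mem_erase hv))
      (by
        intro v hv hne
        exact absurd (Finset.mem_singleton.1 hv) hne)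
    rw [h, Finset.erase_singleton]
    refine S_congr ?_ ?_
    · intro v hv
      rw [Function.update_of_ne (Finset.ne_of_mem_erase hv)]
    · intro v hv
      exact absurd hv (Finset.notMem_empty v)
  rw [e1, e2, e3]
  ring

/-- The step. -/
theorem split1 (hz : z ≠ 0) (hN : N ⊆ W) (hR : R ⊆ W) {u : V} (huN : u ∉ N) (huR : u ∈ R)
    (huW : lab u ∉ W) (ha : a ∉ W) (hl : ∀ v ∈ R, lab v ≠ a) :
    S G W (insert u N) a R ∅ lab z - (1 - 1 / z) ^ (N.card + 1) * S G W ∅ a R ∅ lab z =
      (S G W N a R ∅ lab z - (1 - 1 / z) ^ N.card * S G W ∅ a R ∅ lab z) +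
      1 / z * (S G W N a (R.erase u) {u} (Function.update lab u a) z - (1 - 1 / z) ^ N.card *
        S G W ∅ a (R.erase u) {u} (Function.update lab u a) z) -
      1 / z * (S G W N a (R.erase u) {u} (mrg lab (lab u) a) z - (1 - 1 / z) ^ N.card *
        S G W ∅ a (R.erase u) {u} (mrg lab (lab u) a) z) := by
  have h8 := I8 (G := G) (W := W) (N := N) (R := R) (T := ∅) (a := a) (lab := lab) hz hN hR
    (Finset.empty_subset W) huN huR (Finset.notMem_empty u) (hl u huR) huW
  rw [insert_empty_eq] at h8
  have h0 := split0 (G := G) (z := z) hR huR huW ha hl a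
  rw [h8, h0]
  ring

end Pool.Agent.MP_74a55f_co.Blocks
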