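import Pool.Agent.Lib.MP_74a55f_blocks.BndD
import Pool.Agent.Lib.MP_74a55f_blocks.Split

/-!
# The difference when the label `a` is not used: distinct labels
-/

set_option autoImplicit false
set_option linter.unusedSectionVars false

open Finset

namespace Pool.Agent.MP_74a55f_co.Blocks

variable {V : Type} [Fintype V] [DecidableEq V] {G : SimpleGraph V} [DecidableRel G.Adj] {D : ℕ}
  {W : Finset V} {z : ℂ} {h lam eta C : ℝ}

namespace BndE1Aux

theorem bern (p : Par0 h lam eta C) (n : ℕ) :
    0 ≤ (1 + lam * h) ^ n - 1 - lam * n * h := by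
  have h1 : 0 ≤ lam * h := mul_nonneg (by linarith [p.lam3]) p.h_pos.le
  have := one_add_mul_le_pow (show (-2 : ℝ) ≤ lam * h by linarith) n
  nlinarith [this]

/-- the numerical step for a fresh vertex -/
theorem numA {n : ℕ} {Zn a P A B : ℝ} (p : Par0 h lam eta C) (ha : 0 < a)
    (hA : A ≤ Zn * (a ^ n * (P * ((1 + lam * h) ^ n - 1 - lam * n * h))))
    (hB : B ≤ Zn * (a ^ n * (lam * P * ((1 + lam * h) ^ n - 1)))) :
    a * A + a * h * B ≤
      Zn * (a ^ (n + 1) * (P * ((1 + lam * h) ^ (n + 1) - 1 - lam * ((n : ℝ) + 1) * h))) := by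
  have h1 := mul_le_mul_of_nonneg_left hA ha.le
  have h2 := mul_le_mul_of_nonneg_left hB (mul_nonneg ha.le p.h_pos.le)
  refine (add_le_add h1 h2).trans (le_of_eq ?_)
  rw [pow_succ, pow_succ]
  ring

/-- the numerical step for a vertex of `R` -/
theorem numB {n : ℕ} {Zn a P A B B' : ℝ} (p : Par0 h lam eta C) (ha : 0 < a)
    (ha1 : 1 ≤ a * (1 + h)) (hZ : 0 ≤ Zn) (hP : 0 ≤ P)
    (hA : A ≤ Zn * (a ^ n * (P * ((1 + lam * h) ^ n - 1 - lam * n * h))))
    (hB : B ≤ Zn * (a ^ n * (eta / lam * P * ((1 + lam * h) ^ n - 1))))
    (hB' : B' ≤ Zn * (a ^ n * (eta / lam * P * ((1 + lam * h) ^ n - 1)))) :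
    A + a * h * B + a * h * B' ≤
      Zn * (a ^ (n + 1) * (P * ((1 + lam * h) ^ (n + 1) - 1 - lam * ((n : ℝ) + 1) * h))) := by
  have hh := p.h_pos
  have hl : 0 < lam := by linarith [p.lam3]
  set g : ℝ := (1 + lam * h) ^ n - 1 with hg
  have hb : 0 ≤ g - lam * n * h := by rw [hg]; exact bern p n
  have hn : (0 : ℝ) ≤ n := Nat.cast_nonneg n
  have hlnh : 0 ≤ lam * n * h := mul_nonneg (mul_nonneg hl.le hn) hh.le
  have hg0 : 0 ≤ g := by linarith
  have hq : 0 ≤ Zn * (a ^ n * P) := mul_nonneg hZ (mul_nonneg (pow_pos ha n).le hP)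
  have h1 := mul_le_mul_of_nonneg_left hB (mul_nonneg ha.le hh.le)
  have h2 := mul_le_mul_of_nonneg_left hB' (mul_nonneg ha.le hh.le)
  have hel : 2 * (eta / lam) ≤ lam - 1 := by
    rw [← mul_div_assoc, div_le_iff₀ hl]
    have := p.eta_lam
    nlinarith
  -- the core inequality
  have core : (g - lam * n * h) + a * h * (eta / lam * g) + a * h * (eta / lam * g) ≤
      a * ((g - lam * n * h) + lam * h * g) := by
    have e1 : g - lam * n * h ≤ a * (1 + h) * (g - lam * n * h) :=
      le_mul_of_one_le_left hb ha1
    have e2 : h * (g - lam * n * h) + h * (2 * (eta / lam)) * g ≤ lam * h * g := by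
      have := mul_le_mul_of_nonneg_right hel (mul_nonneg hh.le hg0)
      have := mul_nonneg hh.le hlnh
      nlinarith
    have e3 := mul_le_mul_of_nonneg_left e2 ha.le
    nlinarith
  have core' := mul_le_mul_of_nonneg_left core hq
  have e4 : (1 + lam * h) ^ (n + 1) - 1 - lam * ((n : ℝ) + 1) * h =
      (g - lam * n * h) + lam * h * g := by
    rw [hg, pow_succ]; ring
  rw [e4, pow_succ]
  calc A + a * h * B + a * h * B'
      ≤ Zn * (a ^ n * (P * (g - lam * n * h))) +
          a * h * (Zn * (a ^ n * (eta / lam * P * g))) +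
          a * h * (Zn * (a ^ n * (eta / lam * P * g))) := by linarith
    _ = Zn * (a ^ n * P) * ((g - lam * n * h) + a * h * (eta / lam * g) +
          a * h * (eta / lam * g)) := by ring
    _ ≤ Zn * (a ^ n * P) * (a * ((g - lam * n * h) + lam * h * g)) := core'
    _ = _ := by ring

theorem PP_succ (r : ℕ) : PP C lam eta (r + 1) 0 = lam * PP C lam eta r 0 := by
  unfold PP; rw [pow_succ]; ring

theorem PP_move (hl : lam ≠ 0) (r : ℕ) :
    PP C lam eta r 1 = eta / lam * PP C lam eta (r + 1) 0 := by
  unfold PP; rw [pow_one, pow_zero, pow_succ]; field_simp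

end BndE1Aux

open BndE1Aux in
theorem bndE1 (p : Par0 h lam eta C) (hb : Bg z h) (hA : HA G D z C lam eta W) (N : Finset V)
    (a : V) (R : Finset V) (lab : V → V) (hc : Cf G D W N a R ∅ lab)
    (hl : ∀ v ∈ R, lab v ≠ a) (hr : 2 ≤ R.card)
    (hinj : ∀ u ∈ N, ∀ v ∈ N, u ∈ R → v ∈ R → lab u = lab v → u = v) :
    ‖S G W N a R ∅ lab z - (1 - 1 / z) ^ N.card * S G W ∅ a R ∅ lab z‖ ≤
      ‖Z G W z‖ * (al z ^ N.card * (PP C lam eta R.card 0 *
        ((1 + lam * h) ^ N.card - 1 - lam * N.card * h))) := by
  induction N using Finset.induction_on with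
  | empty => simp
  | insert u N huN ih =>
    have ih' := ih hc.sub (fun u hu v hv => hinj u (mem_insert_of_mem hu) v (mem_insert_of_mem hv))
    rw [card_insert_of_notMem huN]
    by_cases huR : u ∈ R
    · rw [split1 hb.ne hc.sub.N_sub hc.R_sub huN huR (hc.labR u huR) hc.a_out hl]
      have hcard : (R.erase u).card + 1 = R.card := card_erase_add_one huR
      have hc1 : Cf G D W N a (R.erase u) {u} lab := by
        have := hc.sub.move huR
        rwa [insert_empty_eq] at this
      have hPP : PP C lam eta (R.erase u).card 1 = eta / lam * PP C lam eta R.card 0 := by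
        rw [← hcard]; exact PP_move (by linarith [p.lam3]) _
      have hB := bndD p hb hA N a (R.erase u) {u} (Function.update lab u a) hc1.upd
        (by
          intro v hv hvR
          have hvu : v ≠ u := ne_of_mem_erase hvR
          rw [Function.update_of_ne hvu]
          exact hl v (mem_of_mem_erase hvR))
        (by
          intro v hv hvu
          rw [mem_singleton] at hvu
          exact absurd (hvu ▸ hv) huN)
        (by rw [card_singleton]; omega)
      have hB' := bndD p hb hA N a (R.erase u) {u} (mrg lab (lab u) a) hc1.mrg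
        (by
          intro v hv hvR
          have hvu : v ≠ u := ne_of_mem_erase hvR
          have hlv : lab v ≠ lab u := fun e => hvu
            (hinj v (mem_insert_of_mem hv) u (mem_insert_self u N) (mem_of_mem_erase hvR) huR e)
          unfold mrg
          rw [if_neg hlv]
          exact hl v (mem_of_mem_erase hvR))
        (by
          intro v hv hvu
          rw [mem_singleton] at hvu
          exact absurd (hvu ▸ hv) huN)
        (by rw [card_singleton]; omega)
      rw [card_singleton, hPP] at hB hB'
      refine le_trans ?_ (le_trans (numB p (al_pos hb) hb.one (norm_nonneg (Z G W z))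
        (PP_pos p R.card 0).le ih' hB hB') (le_of_eq ?_))
      · refine (norm_sub_le _ _).trans (add_le_add ((norm_add_le _ _).trans
          (add_le_add le_rfl (norm_le_one_add hb _))) (norm_le_one_add hb _))
      · push_cast; ring
    · have huT : u ∉ (∅ : Finset V) := notMem_empty u
      rw [I7 hb.ne huN huR huT]
      have hcf := hc.fresh huT
      have h0 : S G W ∅ a (insert u R) ∅ (Function.update lab u a) z = 0 := by
        refine I12R (empty_subset _) hcf.R_sub (empty_subset _) (mem_insert_self u R) huT ?_
          (Or.inl rfl) ?_ ?_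
        · rw [Function.update_self]; exact hc.a_out
        · intro v hv hvu
          rw [Function.update_self, Function.update_of_ne hvu]
          exact hl v ((mem_insert.1 hv).resolve_left hvu)
        · intro v hv; exact absurd hv (notMem_empty v)
      have hB := bndD p hb hA N a (insert u R) ∅ (Function.update lab u a) hcf
        (by
          intro v hv hvR
          have hvu : v ≠ u := fun e => huN (e ▸ hv)
          rw [Function.update_of_ne hvu]
          exact hl v ((mem_insert.1 hvR).resolve_left hvu))
        (by intro v hv hvT; exact absurd hvT (notMem_empty v))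
        (by rw [card_insert_of_notMem huR]; omega)
      rw [h0, mul_zero, sub_zero, card_insert_of_notMem huR, card_empty, PP_succ] at hB
      refine le_trans ?_ (le_trans (numA p (al_pos hb) ih' hB) (le_of_eq ?_))
      · have e : (1 - 1 / z) * S G W N a R ∅ lab z -
            1 / z * S G W N a (insert u R) ∅ (Function.update lab u a) z -
            (1 - 1 / z) ^ (N.card + 1) * S G W ∅ a R ∅ lab z =
            (1 - 1 / z) * (S G W N a R ∅ lab z - (1 - 1 / z) ^ N.card * S G W ∅ a R ∅ lab z) -
            1 / z * S G W N a (insert u R) ∅ (Function.update lab u a) z := by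
          rw [pow_succ]; ring
        rw [e]
        refine (norm_sub_le _ _).trans (add_le_add ?_ (norm_le_one_add hb _))
        rw [norm_mul]; rfl
      · push_cast; ring

end Pool.Agent.MP_74a55f_co.Blocks
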