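import Mathlib

/-!
# Block moments of proper colourings (MP_74a55f_co)

`V` is a finite vertex set, `G` a graph on `V`.  For `W, N, R, T ⊆ V`, `a : V` and `lab : V → V`
we look at the sum over all maps `σ : V → Fin n` of

  [σ proper on W] * prod_{u in N} [σ u ≠ σ a] * prod_{v in R} (n [σ v = σ (lab v)] - 1)
     * prod_{v in T} n [σ v = σ (lab v)],

a polynomial in `n`, which we evaluate at a complex number `z`.
-/

set_option autoImplicit false
set_option linter.unusedSectionVars false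

open Finset Polynomial

namespace Pool.Agent.MP_74a55f_co.Blocks

/-- indicator of equality -/
def ind {α : Type} [DecidableEq α] (x y : α) : ℂ := if x = y then 1 else 0

section graph

variable {V : Type} [Fintype V] [DecidableEq V]

/-- the neighbours of `x` in `W` -/
def nb (G : SimpleGraph V) [DecidableRel G.Adj] (W : Finset V) (x : V) : Finset V :=
  W.filter (fun u => G.Adj x u)

/-- indicator that `σ` is proper on `W` -/
def prp (G : SimpleGraph V) [DecidableRel G.Adj] (W : Finset V) {n : ℕ} (σ : V → Fin n) : ℂ :=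
  if ∀ u ∈ W, ∀ v ∈ W, G.Adj u v → σ u ≠ σ v then 1 else 0

/-- one summand -/
def trm (G : SimpleGraph V) [DecidableRel G.Adj] (W N : Finset V) (a : V) (R T : Finset V)
    (lab : V → V) {n : ℕ} (σ : V → Fin n) : ℂ :=
  prp G W σ * (∏ u ∈ N, (1 - ind (σ u) (σ a))) *
    (∏ v ∈ R, ((n : ℂ) * ind (σ v) (σ (lab v)) - 1)) *
    ∏ v ∈ T, ((n : ℂ) * ind (σ v) (σ (lab v)))

/-- the block moment at a natural number of colours -/
def natS (G : SimpleGraph V) [DecidableRel G.Adj] (W N : Finset V) (a : V) (R T : Finset V)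
    (lab : V → V) (n : ℕ) : ℂ :=
  ∑ σ : V → Fin n, trm G W N a R T lab σ

/-- the number of maps that are proper on `W` -/
def natZ (G : SimpleGraph V) [DecidableRel G.Adj] (W : Finset V) (n : ℕ) : ℂ :=
  ∑ σ : V → Fin n, prp G W σ

/-- label merging: the labels `j` become `a` -/
def mrg (lab : V → V) (j a : V) : V → V := fun v => if lab v = j then a else lab v

/-- admissible states on `W` -/
structure St (G : SimpleGraph V) [DecidableRel G.Adj] (D : ℕ) (W R T : Finset V) (lab : V → V) :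
    Prop where
  R_sub : R ⊆ W
  T_sub : T ⊆ W
  disj : Disjoint R T
  labR : ∀ v ∈ R, lab v ∉ W
  labT : ∀ v ∈ T, lab v ∉ W
  degR : ∀ v ∈ R, (nb G W v).card ≤ D
  degT : ∀ v ∈ T, (nb G W v).card ≤ D

/-- admissible configurations on `W` -/
structure Cf (G : SimpleGraph V) [DecidableRel G.Adj] (D : ℕ) (W N : Finset V) (a : V)
    (R T : Finset V) (lab : V → V) : Prop extends St G D W R T lab where
  N_sub : N ⊆ W
  a_out : a ∉ W
  degN : ∀ v ∈ N, (nb G W v).card ≤ D

end graph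

/-! ### numerical functions and parameters -/

/-- the bound for large states -/
noncomputable def PP (C lam eta : ℝ) (r t : ℕ) : ℝ := C * lam ^ r * eta ^ t

/-- the bounds for the states -/
noncomputable def FF (C lam eta : ℝ) (r t : ℕ) : ℝ :=
  if r = 0 ∧ t = 0 then 1
  else if r = 1 ∧ t = 0 then 0
  else if r = 0 ∧ t = 1 then 1
  else if r = 2 ∧ t = 0 then 1
  else if r = 1 ∧ t = 1 then 1
  else PP C lam eta r t

/-- the bounds used for configurations -/
noncomputable def QQ (C lam eta : ℝ) (r t : ℕ) : ℝ := if r + t ≤ 1 then 1 else PP C lam eta r t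

/-- refined bounds: neighbours outside `R ∪ T` -/
noncomputable def b0 (h : ℝ) (F : ℕ → ℕ → ℝ) : ℕ → ℕ → ℕ → ℝ
  | 0, r, t => F r t
  | n + 1, r, t => b0 h F n r t + h * b0 h F n (r + 1) t

/-- refined bounds for the difference -/
noncomputable def d0 (h : ℝ) (F : ℕ → ℕ → ℝ) : ℕ → ℕ → ℕ → ℝ
  | 0, _, _ => 0
  | n + 1, r, t => d0 h F n r t + h * b0 h F n (r + 1) t

/-- the basic inequalities between the parameters -/
structure Par0 (h lam eta C : ℝ) : Prop where
  h_pos : 0 < h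
  C_pos : 0 < C
  lam3 : 3 ≤ lam
  eta1 : 1 ≤ eta
  eta_lam : 2 * eta ≤ lam * (lam - 1)
  Clam : C * lam ≤ 1
  Ceta : C * eta ≤ 1
  Clam2 : 1 ≤ C * lam ^ 2
  Clameta : 1 ≤ C * lam * eta
  el : eta + lam ≤ lam ^ 2
  Clam3 : 2 ≤ C * lam ^ 3
  Ceta2 : 1 ≤ C * eta ^ 2

/-- the bound `τ_n` for the relative error of one removal step -/
noncomputable def tauf (h lam C : ℝ) (n : ℕ) : ℝ :=
  C * ((1 + lam * h) ^ n - 1 - lam * n * h) - (n * (n - 1) / 2 : ℝ) * h ^ 2 * (C * lam ^ 2 - 1)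

/-- all the inequalities between the parameters -/
structure Par (D : ℕ) (h lam eta C tau : ℝ) (w : ℕ → ℝ) : Prop extends Par0 h lam eta C where
  tau_lt : tau < 1
  tau_D : tauf h lam C D ≤ tau
  tau_D1 : tauf h lam C (D + 1) < 1
  p4 : (1 + lam * h) ^ D ≤ eta * (1 - tau)
  p5 : 1 + D * h + C * eta * ((1 + lam * h) ^ D - 1 - lam * D * h) ≤ (1 - tau) * (C * eta ^ 2)
  p6 : D * h + C * lam * ((1 + lam * h) ^ D - 1 - lam * D * h) ≤ 1 - tau
  p7 : (1 + lam * h) ^ D - 1 + w D ≤ lam * (1 - tau)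
  p8a : ∀ n ≤ D, (1 + lam * h) ^ n - 1 - lam * n * h ≤ w n
  p8b : ∀ n, 1 ≤ n → n < D →
    (1 + h) * w n + h * (eta / lam * (1 + 1 / lam)) * (1 + lam * h) ^ n ≤ w (n + 1)
  p8c : ∀ n ≤ D, w n ≤ w D
  p9 : ∀ n, n + 2 ≤ D → (1 - C * eta) * (1 + lam * h) ^ n ≤ C * lam * eta - 1

/-- the modulus of `1 - 1/z` -/
noncomputable def al (z : ℂ) : ℝ := ‖1 - 1 / z‖

/-- `z` is large -/
structure Bg (z : ℂ) (h : ℝ) : Prop where
  ne : z ≠ 0
  h_pos : 0 < h
  inv : 1 / ‖z‖ ≤ al z * h
  one : 1 ≤ al z * (1 + h)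

end Pool.Agent.MP_74a55f_co.Blocks
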