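import Pool.Agent.Lib.MP_74a55f_blocks.Defs

/-!
# Parameters for maximum degree four
-/

set_option autoImplicit false
set_option linter.unusedSectionVars false

namespace Pool.Agent.MP_74a55f_co.Blocks

namespace ParAAux

/-- the values `w n` -/
noncomputable def wA (n : ℕ) : ℝ :=
  if n ≤ 1 then 0 else if n = 2 then 0.293 else 0.76

theorem wA0 : wA 0 = 0 := by norm_num [wA]
theorem wA1 : wA 1 = 0 := by norm_num [wA]
theorem wA2 : wA 2 = 0.293 := by norm_num [wA]
theorem wA3 : wA 3 = 0.76 := by norm_num [wA]

end ParAAux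

open ParAAux in
theorem parA : ∃ (lam eta C tau : ℝ) (w : ℕ → ℝ), Par 3 (1 / 7) lam eta C tau w := by
  refine ⟨3.15, 3.38, 0.18, 0.0777, wA, ?_⟩
  constructor
  · constructor <;> norm_num
  · norm_num
  · norm_num [tauf]
  · norm_num [tauf]
  · norm_num
  · norm_num
  · norm_num
  · rw [wA3]; norm_num
  · intro n hn
    interval_cases n
    · rw [wA0]; norm_num
    · rw [wA1]; norm_num
    · rw [wA2]; norm_num
    · rw [wA3]; norm_num
  · intro n h1 h3
    interval_cases n
    · rw [wA1, wA2]; norm_num
    · rw [wA2, wA3]; norm_num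
  · intro n hn
    rw [wA3]
    interval_cases n
    · rw [wA0]; norm_num
    · rw [wA1]; norm_num
    · rw [wA2]; norm_num
    · rw [wA3]
  · intro n hn
    have : n ≤ 1 := by omega
    interval_cases n <;> norm_num

end Pool.Agent.MP_74a55f_co.Blocks
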