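import Pool.Agent.Lib.MP_74a55f_blocks.Defs

/-!
# Parameters for arbitrary maximum degree
-/

set_option autoImplicit false
set_option linter.unusedSectionVars false

namespace Pool.Agent.MP_74a55f_co.Blocks

namespace ParBAux

theorem pow_le_quad {x k : ℝ} (hx : 0 ≤ x) (hk : 0 < k) (n : ℕ) (h : 1 ≤ k * (2 - n * x)) :
    (1 + x) ^ n ≤ 1 + n * x + k * (n * x) ^ 2 := by
  induction n with
  | zero => simp
  | succ n ih =>
    push_cast at h ⊢
    have h1 : 1 ≤ k * (2 - n * x) := by nlinarith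
    have h2 := ih h1
    have h3 : (1 + x) ^ (n + 1) ≤ (1 + n * x + k * (n * x) ^ 2) * (1 + x) := by
      rw [pow_succ]
      exact mul_le_mul_of_nonneg_right h2 (by linarith)
    refine h3.trans ?_
    have hn : (0 : ℝ) ≤ n := Nat.cast_nonneg n
    have h4 : 0 ≤ (n : ℝ) * x ^ 2 * (k * (2 - n * x) - 1) := by
      apply mul_nonneg (by positivity)
      linarith
    nlinarith [sq_nonneg x, mul_pos hk hk]

theorem pow_le_exp {y : ℝ} (hy : 0 ≤ y) {D : ℕ} (hD : 1 ≤ D) :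
    (1 + y / D) ^ D + y ^ 2 / (2 * D) ≤ Real.exp y := by
  have hD0 : (0 : ℝ) < D := by exact_mod_cast hD
  have h1 : (1 + y / D) ^ D = ∑ k ∈ Finset.range (D + 2), (y / D) ^ k * (D.choose k : ℝ) := by
    rw [Finset.sum_range_succ, Nat.choose_succ_self, Nat.cast_zero, mul_zero, add_zero,
      add_comm (1 : ℝ), add_pow]
    exact Finset.sum_congr rfl fun k _ => by rw [one_pow, mul_one]
  have h2 : ∀ k : ℕ, 0 ≤ y ^ k / (k.factorial : ℝ) - (y / D) ^ k * (D.choose k : ℝ) := by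
    intro k
    have h3 : (D.choose k : ℝ) ≤ (D : ℝ) ^ k / (k.factorial : ℝ) := Nat.choose_le_pow_div k D
    have h4 : (y / D) ^ k * (D.choose k : ℝ) ≤ (y / D) ^ k * ((D : ℝ) ^ k / (k.factorial : ℝ)) :=
      mul_le_mul_of_nonneg_left h3 (by positivity)
    have h5 : (y / D) ^ k * ((D : ℝ) ^ k / (k.factorial : ℝ)) = y ^ k / (k.factorial : ℝ) := by
      rw [div_pow]
      field_simp
    linarith
  have h6 : y ^ 2 / (2 * D) ≤
      ∑ k ∈ Finset.range (D + 2), (y ^ k / (k.factorial : ℝ) - (y / D) ^ k * (D.choose k : ℝ)) := by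
    have h7 := Finset.single_le_sum (f := fun k : ℕ =>
      y ^ k / (k.factorial : ℝ) - (y / D) ^ k * (D.choose k : ℝ)) (s := Finset.range (D + 2))
      (fun k _ => h2 k) (Finset.mem_range.2 (show 2 < D + 2 by omega))
    refine le_trans (le_of_eq ?_) h7
    show y ^ 2 / (2 * D) = y ^ 2 / ((2).factorial : ℝ) - (y / D) ^ 2 * (D.choose 2 : ℝ)
    rw [Nat.cast_choose_two]
    norm_num [Nat.factorial]
    field_simp
    ring
  have h8 := Real.sum_le_exp_of_nonneg hy (D + 2)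
  rw [Finset.sum_sub_distrib] at h6
  rw [h1]
  linarith

theorem exp_bound : Real.exp 1.02 ≤ 2.774 := by
  have h1 := Real.exp_one_lt_d9
  have h2 := Real.add_one_le_exp (-0.02 : ℝ)
  have h3 : Real.exp 1.02 * Real.exp (-0.02) = Real.exp 1 := by
    rw [← Real.exp_add]
    norm_num
  have h4 := Real.exp_pos 1.02
  nlinarith

/-- the values `w n` -/
noncomputable def wB (D n : ℕ) : ℝ :=
  0.66 * ((1 + 3.06 * (1 / (3 * (D : ℝ)))) ^ n - (1 + 1 / (3 * (D : ℝ))) ^ n)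

end ParBAux

open ParBAux in
theorem parB (D : ℕ) (hD : 1 ≤ D) :
    ∃ (lam eta C tau : ℝ) (w : ℕ → ℝ), Par D (1 / (3 * D)) lam eta C tau w := by
  have hD1 : (1 : ℝ) ≤ D := by exact_mod_cast hD
  have hD0 : (0 : ℝ) < D := by linarith
  obtain ⟨h, hh⟩ : ∃ h : ℝ, h = 1 / (3 * (D : ℝ)) := ⟨_, rfl⟩
  have hDh : (D : ℝ) * h = 1 / 3 := by rw [hh]; field_simp
  have h0 : 0 < h := by rw [hh]; positivity
  have h1 : h ≤ 1 / 3 := by nlinarith
  -- the power
  obtain ⟨g, hg⟩ : ∃ g : ℝ, g = (1 + 3.06 * h) ^ D := ⟨_, rfl⟩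
  have hg1 : g ≤ 2.774 - 0.5202 * (3 * h) := by
    have h2 := pow_le_exp (y := 1.02) (by norm_num) hD
    have h3 := exp_bound
    have h4 : (1.02 : ℝ) / D = 3.06 * h := by rw [hh]; field_simp; norm_num
    have h5 : (1.02 : ℝ) ^ 2 / (2 * D) = 0.5202 * (3 * h) := by rw [hh]; field_simp; norm_num
    rw [h4, h5, ← hg] at h2
    linarith
  have hg2 : g ≤ 2.774 := by linarith
  have hq : (4 / 3 : ℝ) ≤ (1 + h) ^ D := by
    have := one_add_mul_le_pow (a := h) (by linarith) D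
    linarith
  have hpow : ∀ n ≤ D, (1 + 3.06 * h) ^ n ≤ g := fun n hn => by
    rw [hg]
    exact pow_le_pow_right₀ (by linarith) hn
  have hpow1 : ∀ n : ℕ, 1 ≤ (1 + 3.06 * h) ^ n := fun n => one_le_pow₀ (by linarith)
  have hw : ∀ n, wB D n = 0.66 * ((1 + 3.06 * h) ^ n - (1 + h) ^ n) := by
    intro n
    rw [wB, hh]
  refine ⟨3.06, 3.12, 0.212, 0.1055, wB D, ?_⟩
  rw [← hh]
  constructor
  · constructor
    · exact h0
    all_goals norm_num
  · norm_num
  · -- tau_D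
    unfold tauf
    rw [← hg]
    have e1 : 3.06 * (D : ℝ) * h = 1.02 := by
      rw [mul_assoc, hDh]; norm_num
    have e2 : ((D : ℝ) * (D - 1) / 2) * h ^ 2 = (1 / 3) * (1 / 3 - h) / 2 := by
      have : ((D : ℝ) * (D - 1) / 2) * h ^ 2 = (D * h) * (D * h - h) / 2 := by ring
      rw [this, hDh]
    rw [e1, e2]
    nlinarith
  · -- tau_D1
    unfold tauf
    rw [pow_succ, ← hg]
    have e1 : 3.06 * ((D + 1 : ℕ) : ℝ) * h ≥ 1.02 := by
      push_cast
      nlinarith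
    have e2 : 0 ≤ (((D + 1 : ℕ) : ℝ) * (((D + 1 : ℕ) : ℝ) - 1) / 2) * h ^ 2 *
        (0.212 * 3.06 ^ 2 - 1) := by
      push_cast
      have : (0 : ℝ) ≤ (0.212 * 3.06 ^ 2 - 1) := by norm_num
      apply mul_nonneg _ this
      have : (D : ℝ) + 1 - 1 = D := by ring
      rw [this]
      positivity
    have e3 : g * (1 + 3.06 * h) ≤ 2.774 * 2.02 := by
      apply mul_le_mul hg2 (by linarith) (by linarith) (by norm_num)
    nlinarith
  · rw [← hg]; linarith
  · rw [← hg, hDh, mul_assoc (3.06 : ℝ), hDh]; nlinarith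
  · rw [← hg, hDh, mul_assoc (3.06 : ℝ), hDh]; nlinarith
  · rw [← hg, hw, ← hg]
    nlinarith
  · -- p8a
    intro n hn
    rw [hw]
    have hn' : (n : ℝ) ≤ D := by exact_mod_cast hn
    have hn0 : (0 : ℝ) ≤ n := Nat.cast_nonneg n
    have hs : (n : ℝ) * h ≤ 1 / 3 := by nlinarith
    have hs0 : 0 ≤ (n : ℝ) * h := by positivity
    have a1 := pow_le_quad (x := 3.06 * h) (k := 1.03) (by linarith) (by norm_num) n (by nlinarith)
    have a2 := pow_le_quad (x := h) (k := 0.6) h0.le (by norm_num) n (by nlinarith)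
    have a3 : ((n : ℝ) * h) ^ 2 ≤ (n : ℝ) * h * (1 / 3) := by nlinarith
    have a4 : (n : ℝ) * (3.06 * h) = 3.06 * (n * h) := by ring
    rw [a4] at a1
    have a5 : 3.06 * (n : ℝ) * h = 3.06 * (n * h) := by ring
    rw [a5]
    nlinarith
  · -- p8b
    intro n _ _
    rw [hw, hw]
    have hp := hpow1 n
    have e1 : (0 : ℝ) ≤ 0.66 * 2.06 - 3.12 / 3.06 * (1 + 1 / 3.06) := by norm_num
    have e2 : 0.66 * ((1 + 3.06 * h) ^ (n + 1) - (1 + h) ^ (n + 1)) -
        ((1 + h) * (0.66 * ((1 + 3.06 * h) ^ n - (1 + h) ^ n)) +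
          h * (3.12 / 3.06 * (1 + 1 / 3.06)) * (1 + 3.06 * h) ^ n) =
        h * (1 + 3.06 * h) ^ n * (0.66 * 2.06 - 3.12 / 3.06 * (1 + 1 / 3.06)) := by
      rw [pow_succ, pow_succ]
      ring
    have e3 : 0 ≤ h * (1 + 3.06 * h) ^ n * (0.66 * 2.06 - 3.12 / 3.06 * (1 + 1 / 3.06)) :=
      mul_nonneg (mul_nonneg h0.le (by linarith)) e1
    linarith
  · -- p8c
    intro n hn
    have hmono : Monotone (wB D) := by
      apply monotone_nat_of_le_succ
      intro k
      rw [hw, hw]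
      have b1 : (1 + h) ^ k ≤ (1 + 3.06 * h) ^ k :=
        pow_le_pow_left₀ (by linarith) (by linarith) k
      have b2 := hpow1 k
      rw [pow_succ, pow_succ]
      nlinarith
    exact hmono hn
  · -- p9
    intro n hn
    have := hpow n (by omega)
    nlinarith

end Pool.Agent.MP_74a55f_co.Blocks
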