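import Pool.Agent.Lib.MP_74a55f_blocks.Main
import Pool.Agent.Lib.MP_74a55f_blocks.ParA
import Pool.Agent.Lib.MP_74a55f_blocks.ParB

/-!
# Chromatic roots of graphs of bounded maximum degree
-/

set_option autoImplicit false
set_option linter.unusedSectionVars false

open Finset Polynomial

namespace Pool.Agent.MP_74a55f_co.Blocks

/-- `Z` is the chromatic polynomial. -/
theorem eval_eq_Z {n : ℕ} (G : SimpleGraph (Fin n)) [DecidableRel G.Adj] (P : ℂ[X])
    (hP : ∀ k : ℕ, P.eval (k : ℂ) = (Nat.card (G.Coloring (Fin k)) : ℂ)) (z : ℂ) :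
    P.eval z = Z G univ z := by
  classical
  have h1 : P = pZ G univ := by
    refine transfer fun k _ => ?_
    rw [hP, pZ_nat, natZ]
    have h2 : ∀ σ : Fin n → Fin k, prp G univ σ =
        if (∀ u v, G.Adj u v → σ u ≠ σ v) then 1 else 0 := by
      intro σ
      unfold prp
      congr 1
      simp
    simp_rw [h2]
    rw [Finset.sum_boole]
    congr 1
    let e : G.Coloring (Fin k) ≃ {σ : Fin n → Fin k // ∀ u v, G.Adj u v → σ u ≠ σ v} :=
      { toFun := fun c => ⟨fun v => c v, fun u v h => c.valid h⟩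
        invFun := fun σ => SimpleGraph.Coloring.mk σ.1 (fun {u v} h => σ.2 u v h)
        left_inv := fun c => by
          ext v
          rfl
        right_inv := fun σ => by
          apply Subtype.ext
          rfl }
    rw [Nat.card_congr e, Nat.card_eq_fintype_card, Fintype.card_subtype]
  rw [h1]
  rfl

theorem nonvanishing {D : ℕ} {h lam eta C tau : ℝ} {w : ℕ → ℝ} (p : Par D h lam eta C tau w)
    (n : ℕ) (G : SimpleGraph (Fin n)) [DecidableRel G.Adj] (hΔ : G.maxDegree ≤ D + 1) (P : ℂ[X])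
    (hP : ∀ k : ℕ, P.eval (k : ℂ) = (Nat.card (G.Coloring (Fin k)) : ℂ))
    (z : ℂ) (hz : 1 + 1 / h ≤ ‖z‖) : ¬ P.IsRoot z := by
  intro hroot
  have hb : Bg z h := Bg.of_norm p.h_pos hz
  have hG : ∀ v, (nb G univ v).card ≤ D + 1 := by
    intro v
    have h1 : (nb G univ v).card = G.degree v := by
      rw [← SimpleGraph.card_neighborFinset_eq_degree]
      congr 1
      ext u
      simp [nb]
    rw [h1]
    exact (G.degree_le_maxDegree v).trans hΔ
  have h2 := (main p hb hG univ).1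
  apply h2
  rw [← eval_eq_Z G P hP z]
  exact hroot

/-- maximum degree four -/
theorem degree_four (n : ℕ) (G : SimpleGraph (Fin n)) [DecidableRel G.Adj]
    (hΔ : G.maxDegree ≤ 4) (P : ℂ[X])
    (hP : ∀ k : ℕ, P.eval (k : ℂ) = (Nat.card (G.Coloring (Fin k)) : ℂ))
    (z : ℂ) (hz : P.IsRoot z) : ‖z‖ < 8 := by
  obtain ⟨lam, eta, C, tau, w, p⟩ := parA
  by_contra hcon
  push Not at hcon
  refine nonvanishing p n G (by simpa using hΔ) P hP z ?_ hz
  norm_num
  exact hcon

/-- arbitrary maximum degree at least two -/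
theorem general (n : ℕ) (G : SimpleGraph (Fin n)) [DecidableRel G.Adj]
    (hΔ : 2 ≤ G.maxDegree) (P : ℂ[X])
    (hP : ∀ k : ℕ, P.eval (k : ℂ) = (Nat.card (G.Coloring (Fin k)) : ℂ))
    (z : ℂ) (hz : P.IsRoot z) : ‖z‖ < 3 * (G.maxDegree : ℝ) - 2 := by
  obtain ⟨D, hD⟩ : ∃ D, G.maxDegree = D + 1 := ⟨G.maxDegree - 1, by omega⟩
  have hD1 : 1 ≤ D := by omega
  obtain ⟨lam, eta, C, tau, w, p⟩ := parB D hD1
  by_contra hcon
  push Not at hcon
  refine nonvanishing p n G hD.le P hP z ?_ hz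
  rw [one_div_one_div]
  rw [hD] at hcon
  push_cast at hcon
  linarith

end Pool.Agent.MP_74a55f_co.Blocks
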