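import Pool.Agent.Lib.MP_74a55f_blocks.Poly

/-!
# Pointwise identities between block moments
-/

set_option autoImplicit false
set_option linter.unusedSectionVars false

open Finset Polynomial

namespace Pool.Agent.MP_74a55f_co.Blocks

variable {V : Type} [Fintype V] [DecidableEq V] {G : SimpleGraph V} [DecidableRel G.Adj]
  {W N R T : Finset V} {a : V} {lab : V → V} {z : ℂ}

namespace IdAAux

theorem pS_congr {W' N' R' T' : Finset V} {a' : V} {lab' : V → V}
    (h : ∀ n : ℕ, 1 ≤ n → natS G W N a R T lab n = natS G W' N' a' R' T' lab' n) :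
    pS G W N a R T lab = pS G W' N' a' R' T' lab' := by
  apply transfer
  intro n hn
  rw [pS_nat, pS_nat, h n hn]

theorem prodR_update {n : ℕ} (σ : V → Fin n) {u : V} {M : Finset V} (hu : u ∉ M) (b : V)
    (g : Fin n → Fin n → ℂ) :
    ∏ v ∈ M, g (σ v) (σ (Function.update lab u b v)) = ∏ v ∈ M, g (σ v) (σ (lab v)) := by
  apply Finset.prod_congr rfl
  intro v hv
  have hvu : v ≠ u := fun e => hu (e ▸ hv)
  rw [Function.update_of_ne hvu]

theorem ind_cases {α : Type} [DecidableEq α] (x y : α) : ind x y = 0 ∨ ind x y = 1 := by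
  unfold ind
  split_ifs
  · right; rfl
  · left; rfl

theorem prp_mul {s t : V} (hsW : s ∈ W) (htW : t ∈ W) (hadj : G.Adj s t) {n : ℕ}
    (σ : V → Fin n) (c : Fin n) : prp G W σ * (ind (σ s) c * ind (σ t) c) = 0 := by
  by_cases h : ∀ u ∈ W, ∀ v ∈ W, G.Adj u v → σ u ≠ σ v
  · have hne := h s hsW t htW hadj
    unfold ind
    by_cases h1 : σ s = c
    · by_cases h2 : σ t = c
      · exact absurd (h1.trans h2.symm) hne
      · simp [h2]
    · simp [h1]
  · simp [prp, h]

end IdAAux

open IdAAux

theorem S_congr {lab' : V → V} (hR : ∀ v ∈ R, lab v = lab' v) (hT : ∀ v ∈ T, lab v = lab' v) :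
    S G W N a R T lab z = S G W N a R T lab' z := by
  unfold S
  congr 1
  apply pS_congr
  intro n _
  unfold natS
  apply Finset.sum_congr rfl
  intro σ _
  unfold trm
  congr 1
  · congr 1
    apply Finset.prod_congr rfl
    intro v hv
    rw [hR v hv]
  · apply Finset.prod_congr rfl
    intro v hv
    rw [hT v hv]

theorem S_empty (b : V) : S G W ∅ a R T lab z = S G W ∅ b R T lab z := by
  have key : pS G W ∅ a R T lab = pS G W ∅ b R T lab := by
    apply pS_congr
    intro n _
    unfold natS
    apply Finset.sum_congr rfl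
    intro σ _
    simp [trm]
  unfold S
  rw [key]

theorem S_Z : S G W ∅ a ∅ ∅ lab z = Z G W z := by
  unfold S Z
  congr 1
  apply transfer
  intro n _
  rw [pS_nat, pZ_nat]
  unfold natS natZ
  apply Finset.sum_congr rfl
  intro σ _
  simp [trm]

theorem Z_empty : Z G ∅ z = z ^ Fintype.card V := by
  have h : pZ G (∅ : Finset V) = X ^ Fintype.card V := by
    apply transfer
    intro n _
    rw [pZ_nat, eval_pow, eval_X]
    unfold natZ
    have h1 : ∀ σ : V → Fin n, prp G ∅ σ = 1 := by
      intro σ
      simp [prp]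
    simp only [h1, Finset.sum_const, Finset.card_univ, Fintype.card_fun, Fintype.card_fin,
      nsmul_eq_mul, mul_one, Nat.cast_pow]
  unfold Z
  rw [h, eval_pow, eval_X]

/-- a neighbour outside `R ∪ T` -/
theorem I7 (hz : z ≠ 0) {u : V} (huN : u ∉ N) (huR : u ∉ R) (huT : u ∉ T) :
    S G W (insert u N) a R T lab z = (1 - 1 / z) * S G W N a R T lab z -
      1 / z * S G W N a (insert u R) T (Function.update lab u a) z := by
  have key : X * pS G W (insert u N) a R T lab = (X - 1) * pS G W N a R T lab -
      pS G W N a (insert u R) T (Function.update lab u a) := by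
    apply transfer
    intro n _
    simp only [eval_mul, eval_sub, eval_X, eval_one, pS_nat]
    unfold natS
    rw [Finset.mul_sum, Finset.mul_sum, ← Finset.sum_sub_distrib]
    apply Finset.sum_congr rfl
    intro σ _
    unfold trm
    rw [Finset.prod_insert huN, Finset.prod_insert huR, Function.update_self,
      prodR_update σ huR a (fun x y => (n : ℂ) * ind x y - 1),
      prodR_update σ huT a (fun x y => (n : ℂ) * ind x y)]
    ring
  have h2 := congrArg (eval z) key
  simp only [eval_mul, eval_sub, eval_X, eval_one] at h2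
  unfold S
  field_simp
  linear_combination h2

theorem I10 (hz : z ≠ 0) {u : V} (huN : u ∉ N) (huR : u ∈ R) (hl : lab u = a) :
    S G W (insert u N) a R T lab z = -(1 - 1 / z) * S G W N a (R.erase u) T lab z +
      1 / z * S G W N a R T lab z := by
  have key : X * pS G W (insert u N) a R T lab = - (X - 1) * pS G W N a (R.erase u) T lab +
      pS G W N a R T lab := by
    apply transfer
    intro n _
    simp only [eval_mul, eval_sub, eval_add, eval_neg, eval_X, eval_one, pS_nat]
    unfold natS
    rw [Finset.mul_sum, Finset.mul_sum, ← Finset.sum_add_distrib]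
    apply Finset.sum_congr rfl
    intro σ _
    unfold trm
    rw [Finset.prod_insert huN, ← Finset.mul_prod_erase R _ huR, hl]
    rcases ind_cases (σ u) (σ a) with h | h
    · rw [h]; ring
    · rw [h]; ring
  have h2 := congrArg (eval z) key
  simp only [eval_mul, eval_sub, eval_add, eval_neg, eval_X, eval_one] at h2
  unfold S
  field_simp
  linear_combination h2

theorem I11 {u : V} (huN : u ∉ N) (huT : u ∈ T) (hl : lab u = a) :
    S G W (insert u N) a R T lab z = 0 := by
  have key : pS G W (insert u N) a R T lab = 0 := by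
    apply transfer
    intro n _
    rw [eval_zero, pS_nat]
    unfold natS
    apply Finset.sum_eq_zero
    intro σ _
    unfold trm
    rw [Finset.prod_insert huN, ← Finset.mul_prod_erase T _ huT, hl]
    rcases ind_cases (σ u) (σ a) with h | h
    · rw [h]; ring
    · rw [h]; ring
  unfold S
  rw [key, eval_zero]

/-- two adjacent vertices with the same label in `R` -/
theorem I1 {s t : V} (hsW : s ∈ W) (htW : t ∈ W) (hs : s ∈ R) (ht : t ∈ R) (hsT : s ∉ T)
    (hadj : G.Adj s t) (hl : lab s = lab t) :
    S G W N a R T lab z = - S G W N a ((R.erase s).erase t) (insert s T) lab z -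
      S G W N a (R.erase s) T lab z := by
  have hts : t ∈ R.erase s := Finset.mem_erase.2 ⟨fun h => G.loopless.irrefl s (h ▸ hadj), ht⟩
  have key : pS G W N a R T lab = - pS G W N a ((R.erase s).erase t) (insert s T) lab -
      pS G W N a (R.erase s) T lab := by
    apply transfer
    intro n _
    simp only [eval_sub, eval_neg, pS_nat]
    unfold natS
    rw [← Finset.sum_neg_distrib, ← Finset.sum_sub_distrib]
    apply Finset.sum_congr rfl
    intro σ _
    have h0 := prp_mul hsW htW hadj σ (σ (lab t))
    unfold trm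
    rw [← Finset.mul_prod_erase R _ hs, ← Finset.mul_prod_erase (R.erase s) _ hts,
      Finset.prod_insert hsT, hl]
    linear_combination ((n : ℂ) ^ 2 * (∏ u ∈ N, (1 - ind (σ u) (σ a))) *
      (∏ v ∈ (R.erase s).erase t, ((n : ℂ) * ind (σ v) (σ (lab v)) - 1)) *
      ∏ v ∈ T, ((n : ℂ) * ind (σ v) (σ (lab v)))) * h0
  have h2 := congrArg (eval z) key
  simp only [eval_sub, eval_neg] at h2
  exact h2

theorem I2 {s t : V} (hsW : s ∈ W) (htW : t ∈ W) (hs : s ∈ R) (ht : t ∈ T)
    (hadj : G.Adj s t) (hl : lab s = lab t) :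
    S G W N a R T lab z = - S G W N a (R.erase s) T lab z := by
  have key : pS G W N a R T lab = - pS G W N a (R.erase s) T lab := by
    apply transfer
    intro n _
    simp only [eval_neg, pS_nat]
    unfold natS
    rw [← Finset.sum_neg_distrib]
    apply Finset.sum_congr rfl
    intro σ _
    have h0 := prp_mul hsW htW hadj σ (σ (lab t))
    unfold trm
    rw [← Finset.mul_prod_erase R _ hs, ← Finset.mul_prod_erase T _ ht, hl]
    linear_combination ((n : ℂ) ^ 2 * (∏ u ∈ N, (1 - ind (σ u) (σ a))) *
      (∏ v ∈ R.erase s, ((n : ℂ) * ind (σ v) (σ (lab v)) - 1)) *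
      ∏ v ∈ T.erase t, ((n : ℂ) * ind (σ v) (σ (lab v)))) * h0
  have h2 := congrArg (eval z) key
  simp only [eval_neg] at h2
  exact h2

theorem I3 {s t : V} (hsW : s ∈ W) (htW : t ∈ W) (hs : s ∈ T) (ht : t ∈ T)
    (hadj : G.Adj s t) (hl : lab s = lab t) : S G W N a R T lab z = 0 := by
  have hts : t ∈ T.erase s := Finset.mem_erase.2 ⟨fun h => G.loopless.irrefl s (h ▸ hadj), ht⟩
  have key : pS G W N a R T lab = 0 := by
    apply transfer
    intro n _
    rw [eval_zero, pS_nat]
    unfold natS
    apply Finset.sum_eq_zero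
    intro σ _
    have h0 := prp_mul hsW htW hadj σ (σ (lab t))
    unfold trm
    rw [← Finset.mul_prod_erase T _ hs, ← Finset.mul_prod_erase (T.erase s) _ hts, hl]
    linear_combination ((n : ℂ) ^ 2 * (∏ u ∈ N, (1 - ind (σ u) (σ a))) *
      (∏ v ∈ R, ((n : ℂ) * ind (σ v) (σ (lab v)) - 1)) *
      ∏ v ∈ (T.erase s).erase t, ((n : ℂ) * ind (σ v) (σ (lab v)))) * h0
  unfold S
  rw [key, eval_zero]

theorem I13 {v : V} (hvT : v ∈ T) (hvR : v ∉ R) :
    S G W N a R T lab z = S G W N a (insert v R) (T.erase v) lab z +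
      S G W N a R (T.erase v) lab z := by
  have key : pS G W N a R T lab = pS G W N a (insert v R) (T.erase v) lab +
      pS G W N a R (T.erase v) lab := by
    apply transfer
    intro n _
    simp only [eval_add, pS_nat]
    unfold natS
    rw [← Finset.sum_add_distrib]
    apply Finset.sum_congr rfl
    intro σ _
    unfold trm
    rw [← Finset.mul_prod_erase T _ hvT, Finset.prod_insert hvR]
    ring
  have h2 := congrArg (eval z) key
  simp only [eval_add] at h2
  exact h2

/-- removal of a vertex of `W`, no blocks -/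
theorem I6 {x : V} (hx : x ∈ W) :
    Z G W z = S G (W.erase x) (nb G W x) x ∅ ∅ lab z := by
  unfold S Z
  congr 1
  apply transfer
  intro n _
  rw [pS_nat, pZ_nat]
  unfold natS natZ
  apply Finset.sum_congr rfl
  intro σ _
  unfold trm
  rw [Finset.prod_empty, Finset.prod_empty, mul_one, mul_one]
  by_cases h1 : ∀ u ∈ W.erase x, ∀ v ∈ W.erase x, G.Adj u v → σ u ≠ σ v
  · by_cases h2 : ∀ u ∈ nb G W x, σ u ≠ σ x
    · have h3 : ∏ u ∈ nb G W x, (1 - ind (σ u) (σ x)) = 1 := by
        apply Finset.prod_eq_one
        intro u hu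
        simp [ind, h2 u hu]
      have h4 : ∀ u ∈ W, ∀ v ∈ W, G.Adj u v → σ u ≠ σ v := by
        intro u hu v hv huv
        by_cases hux : u = x
        · by_cases hvx : v = x
          · exact absurd huv (by rw [hux, hvx]; exact G.loopless.irrefl x)
          · have : v ∈ nb G W x := by
              rw [nb, Finset.mem_filter]
              exact ⟨hv, hux ▸ huv⟩
            rw [hux]
            exact fun e => h2 v this e.symm
        · by_cases hvx : v = x
          · have : u ∈ nb G W x := by
              rw [nb, Finset.mem_filter]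
              exact ⟨hu, hvx ▸ huv.symm⟩
            rw [hvx]
            exact h2 u this
          · exact h1 u (Finset.mem_erase.2 ⟨hux, hu⟩) v (Finset.mem_erase.2 ⟨hvx, hv⟩) huv
      rw [h3, mul_one]
      unfold prp
      rw [if_pos h4, if_pos h1]
    · push Not at h2
      obtain ⟨u, hu, hux⟩ := h2
      have h3 : ∏ u ∈ nb G W x, (1 - ind (σ u) (σ x)) = 0 := by
        apply Finset.prod_eq_zero hu
        simp [ind, hux]
      rw [h3, mul_zero]
      unfold prp
      rw [if_neg]
      intro h4
      rw [nb, Finset.mem_filter] at hu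
      exact h4 x hx u hu.1 hu.2 hux.symm
  · have h5 : ¬ ∀ u ∈ W, ∀ v ∈ W, G.Adj u v → σ u ≠ σ v := by
      intro h4
      exact h1 fun u hu v hv => h4 u (Finset.mem_of_mem_erase hu) v (Finset.mem_of_mem_erase hv)
    unfold prp
    rw [if_neg h1, if_neg h5, zero_mul]

end Pool.Agent.MP_74a55f_co.Blocks
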