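import Pool.Agent.Lib.MP_74a55f_blocks.Poly

/-!
# Removal of a vertex of `R ∪ T`
-/

set_option autoImplicit false
set_option linter.unusedSectionVars false

open Finset Polynomial

namespace Pool.Agent.MP_74a55f_co.Blocks

variable {V : Type} [Fintype V] [DecidableEq V] {G : SimpleGraph V} [DecidableRel G.Adj]
  {W N R T : Finset V} {a : V} {lab : V → V} {z : ℂ}

namespace IdBAux

/-- averaging over one coordinate -/
theorem sum_update {n : ℕ} (x : V) (F : (V → Fin n) → ℂ) :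
    ∑ σ : V → Fin n, ∑ c : Fin n, F (Function.update σ x c) = (n : ℂ) * ∑ σ : V → Fin n, F σ := by
  have h1 : ∑ σ : V → Fin n, ∑ c : Fin n, F (Function.update σ x c) =
      ∑ p : (V → Fin n) × Fin n, F (Function.update p.1 x p.2) := by
    rw [Fintype.sum_prod_type]
  have h2 : ∑ p : (V → Fin n) × Fin n, F (Function.update p.1 x p.2) =
      ∑ p : (V → Fin n) × Fin n, F p.1 := by
    refine Finset.sum_bij' (fun p _ => (Function.update p.1 x p.2, p.1 x))
      (fun p _ => (Function.update p.1 x p.2, p.1 x)) ?_ ?_ ?_ ?_ ?_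
    · intro p _; exact mem_univ _
    · intro p _; exact mem_univ _
    · intro p _; ext1 <;> simp
    · intro p _; ext1 <;> simp
    · intro p _; rfl
  rw [h1, h2, Fintype.sum_prod_type]
  simp [Finset.mul_sum]

theorem sum_ind {n : ℕ} {x y : V} (hxy : y ≠ x) (g : (V → Fin n) → ℂ)
    (hg : ∀ σ c, g (Function.update σ x c) = g σ) :
    ∑ σ : V → Fin n, (n : ℂ) * ind (σ x) (σ y) * g σ = ∑ σ : V → Fin n, g σ := by
  have h := sum_update (n := n) x (fun σ => ind (σ x) (σ y) * g σ)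
  rw [show ∑ σ : V → Fin n, (n : ℂ) * ind (σ x) (σ y) * g σ =
    (n : ℂ) * ∑ σ : V → Fin n, ind (σ x) (σ y) * g σ by
      rw [Finset.mul_sum]; exact Finset.sum_congr rfl (fun σ _ => by ring), ← h]
  refine Finset.sum_congr rfl (fun σ _ => ?_)
  have : ∀ c : Fin n, ind ((Function.update σ x c) x) ((Function.update σ x c) y) *
      g (Function.update σ x c) = if c = σ y then g σ else 0 := by
    intro c
    rw [Function.update_self, Function.update_of_ne hxy, hg]
    unfold ind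
    split_ifs <;> simp
  simp only [this, Finset.sum_ite_eq', mem_univ, if_true]

theorem prp_erase {n : ℕ} {x : V} (hx : x ∈ W) (σ : V → Fin n) :
    prp G W σ = prp G (W.erase x) σ * ∏ u ∈ nb G W x, (1 - ind (σ u) (σ x)) := by
  classical
  by_cases h1 : ∀ u ∈ W.erase x, ∀ v ∈ W.erase x, G.Adj u v → σ u ≠ σ v
  · by_cases h2 : ∀ u ∈ nb G W x, σ u ≠ σ x
    · have h3 : ∀ u ∈ W, ∀ v ∈ W, G.Adj u v → σ u ≠ σ v := by
        intro u hu v hv huv
        by_cases hux : u = x
        · subst hux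
          exact (h2 v (by rw [nb, mem_filter]; exact ⟨hv, huv⟩)).symm
        · by_cases hvx : v = x
          · subst hvx
            exact h2 u (by rw [nb, mem_filter]; exact ⟨hu, huv.symm⟩)
          · exact h1 u (mem_erase.2 ⟨hux, hu⟩) v (mem_erase.2 ⟨hvx, hv⟩) huv
      rw [prp, prp, if_pos h1, if_pos h3, Finset.prod_eq_one, mul_one]
      intro u hu
      rw [ind, if_neg (h2 u hu), sub_zero]
    · push Not at h2
      obtain ⟨u, hu, hux⟩ := h2
      have h3 : ¬ ∀ u ∈ W, ∀ v ∈ W, G.Adj u v → σ u ≠ σ v := by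
        intro h
        rw [nb, mem_filter] at hu
        exact h u hu.1 x hx hu.2.symm hux
      rw [prp, if_neg h3, Finset.prod_eq_zero hu, mul_zero]
      rw [ind, if_pos hux, sub_self]
  · have h3 : ¬ ∀ u ∈ W, ∀ v ∈ W, G.Adj u v → σ u ≠ σ v := by
      intro h
      exact h1 (fun u hu v hv => h u (mem_of_mem_erase hu) v (mem_of_mem_erase hv))
    rw [prp, prp, if_neg h1, if_neg h3, zero_mul]

theorem mem_nb_ne {x u : V} (hu : u ∈ nb G W x) : u ≠ x := by
  rw [nb, mem_filter] at hu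
  exact fun h => G.loopless.irrefl x (h ▸ hu.2)

/-- independence of the coordinate `x` -/
theorem trm_update {n : ℕ} {x b : V} (hb : b ≠ x) {N R T : Finset V} (hN : x ∉ N)
    (hR : x ∉ R) (hT : x ∉ T) (hlR : ∀ v ∈ R, lab v ≠ x) (hlT : ∀ v ∈ T, lab v ≠ x)
    (σ : V → Fin n) (c : Fin n) :
    trm G (W.erase x) N b R T lab (Function.update σ x c) = trm G (W.erase x) N b R T lab σ := by
  have hu : ∀ u, u ≠ x → Function.update σ x c u = σ u := fun u h => Function.update_of_ne h _ _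
  have hne : ∀ {A : Finset V}, x ∉ A → ∀ u ∈ A, u ≠ x := fun hA u hu h => hA (h ▸ hu)
  unfold trm
  congr 1
  · congr 1
    · congr 1
      · unfold prp
        congr 1
        refine propext ⟨fun h u hu' v hv' huv => ?_, fun h u hu' v hv' huv => ?_⟩
        · have := h u hu' v hv' huv
          rwa [hu u (mem_erase.1 hu').1, hu v (mem_erase.1 hv').1] at this
        · rw [hu u (mem_erase.1 hu').1, hu v (mem_erase.1 hv').1]
          exact h u hu' v hv' huv
      · refine Finset.prod_congr rfl (fun u hu' => ?_)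
        rw [hu u (hne hN u hu'), hu b hb]
    · refine Finset.prod_congr rfl (fun u hu' => ?_)
      rw [hu u (hne hR u hu'), hu _ (hlR u hu')]
  · refine Finset.prod_congr rfl (fun u hu' => ?_)
    rw [hu u (hne hT u hu'), hu _ (hlT u hu')]

theorem ind_swap {n : ℕ} (s t : Fin n) (A : Finset V) (σ : V → Fin n) :
    ind s t * ∏ u ∈ A, (1 - ind (σ u) s) = ind s t * ∏ u ∈ A, (1 - ind (σ u) t) := by
  by_cases h : s = t
  · rw [h]
  · rw [ind, if_neg h, zero_mul, zero_mul]

theorem ne_out {x y : V} (hx : x ∈ W) (hy : y ∉ W) : y ≠ x := fun h => hy (h ▸ hx)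

end IdBAux

open IdBAux

theorem I4 {x : V} (hx : x ∈ W) (hxT : x ∈ T) (hxR : x ∉ R) (hlR : ∀ v ∈ R, lab v ∉ W)
    (hlT : ∀ v ∈ T, lab v ∉ W) :
    S G W ∅ a R T lab z = S G (W.erase x) (nb G W x) (lab x) R (T.erase x) lab z := by
  unfold S
  congr 1
  refine transfer (fun n _ => ?_)
  rw [pS_nat, pS_nat, natS, natS]
  have hlx : lab x ≠ x := ne_out hx (hlT x hxT)
  rw [← sum_ind (n := n) hlx (fun σ => trm G (W.erase x) (nb G W x) (lab x) R (T.erase x) lab σ)
    (fun σ c => trm_update hlx (fun h => mem_nb_ne h rfl) hxR (notMem_erase x T)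
      (fun v hv => ne_out hx (hlR v hv))
      (fun v hv => ne_out hx (hlT v (mem_of_mem_erase hv))) σ c)]
  refine Finset.sum_congr rfl (fun σ _ => ?_)
  have h1 := ind_swap (σ x) (σ (lab x)) (nb G W x) σ
  have h2 : ∏ v ∈ T, ((n : ℂ) * ind (σ v) (σ (lab v))) =
      ((n : ℂ) * ind (σ x) (σ (lab x))) * ∏ v ∈ T.erase x, ((n : ℂ) * ind (σ v) (σ (lab v))) :=
    (Finset.mul_prod_erase T _ hxT).symm
  unfold trm
  rw [prp_erase hx σ, h2, Finset.prod_empty, mul_one]
  linear_combination (prp G (W.erase x) σ * (∏ v ∈ R, ((n : ℂ) * ind (σ v) (σ (lab v)) - 1)) *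
    (n : ℂ) * ∏ v ∈ T.erase x, ((n : ℂ) * ind (σ v) (σ (lab v)))) * h1

theorem I5 {x : V} (hx : x ∈ W) (hxR : x ∈ R) (hxT : x ∉ T) (hlR : ∀ v ∈ R, lab v ∉ W)
    (hlT : ∀ v ∈ T, lab v ∉ W) :
    S G W ∅ a R T lab z = S G (W.erase x) (nb G W x) (lab x) (R.erase x) T lab z -
      S G (W.erase x) (nb G W x) x (R.erase x) T lab z := by
  unfold S
  rw [← Polynomial.eval_sub]
  congr 1
  refine transfer (fun n _ => ?_)
  rw [Polynomial.eval_sub, pS_nat, pS_nat, pS_nat, natS, natS, natS]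
  have hlx : lab x ≠ x := ne_out hx (hlR x hxR)
  rw [← sum_ind (n := n) hlx (fun σ => trm G (W.erase x) (nb G W x) (lab x) (R.erase x) T lab σ)
    (fun σ c => trm_update hlx (fun h => mem_nb_ne h rfl) (notMem_erase x R) hxT
      (fun v hv => ne_out hx (hlR v (mem_of_mem_erase hv)))
      (fun v hv => ne_out hx (hlT v hv)) σ c), ← Finset.sum_sub_distrib]
  refine Finset.sum_congr rfl (fun σ _ => ?_)
  have h1 := ind_swap (σ x) (σ (lab x)) (nb G W x) σ
  have h2 : ∏ v ∈ R, ((n : ℂ) * ind (σ v) (σ (lab v)) - 1) =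
      ((n : ℂ) * ind (σ x) (σ (lab x)) - 1) *
        ∏ v ∈ R.erase x, ((n : ℂ) * ind (σ v) (σ (lab v)) - 1) :=
    (Finset.mul_prod_erase R _ hxR).symm
  unfold trm
  rw [prp_erase hx σ, h2, Finset.prod_empty, mul_one]
  linear_combination (prp G (W.erase x) σ *
    (∏ v ∈ R.erase x, ((n : ℂ) * ind (σ v) (σ (lab v)) - 1)) *
    (n : ℂ) * ∏ v ∈ T, ((n : ℂ) * ind (σ v) (σ (lab v)))) * h1

end Pool.Agent.MP_74a55f_co.Blocks
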