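import Pool.Agent.Lib.MP_74a55f_blocks.Ratio
import Pool.Agent.Lib.MP_74a55f_blocks.IdB
import Pool.Agent.Lib.MP_74a55f_blocks.BndB

/-!
# Large states with an element of `T`
-/

set_option autoImplicit false
set_option linter.unusedSectionVars false

open Finset

namespace Pool.Agent.MP_74a55f_co.Blocks

variable {V : Type} [Fintype V] [DecidableEq V] {G : SimpleGraph V} [DecidableRel G.Adj] {D : ℕ}
  {W R T : Finset V} {lab : V → V} {z : ℂ} {h lam eta C tau : ℝ} {w : ℕ → ℝ}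

theorem stT (p : Par D h lam eta C tau w) (hb : Bg z h)
    (hG : ∀ v, (nb G univ v).card ≤ D + 1) (hA : ∀ x ∈ W, HA G D z C lam eta (W.erase x))
    (hs : St G D W R T lab) (hT : 1 ≤ T.card) (hrt : 3 ≤ R.card + T.card) (a : V) :
    ‖S G W ∅ a R T lab z‖ ≤ ‖Z G W z‖ * PP C lam eta R.card T.card := by
  obtain ⟨x, hxT⟩ := Finset.card_pos.1 (Nat.lt_of_lt_of_le Nat.zero_lt_one hT)
  have hxW : x ∈ W := hs.T_sub hxT
  have hxR : x ∉ R := fun hxR => (Finset.disjoint_left.1 hs.disj) hxR hxT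
  have hdx : (nb G W x).card ≤ D := hs.degT x hxT
  have hlx : lab x ∉ W.erase x := fun hm => hs.labT x hxT (mem_of_mem_erase hm)
  have hcf : Cf G D (W.erase x) (nb G W x) (lab x) R (T.erase x) lab :=
    (hs.eraseT (u := x)).remove hG hxW hxR (notMem_erase x T) hlx
  have hB := bndB p.toPar0 hb (hA x hxW) (nb G W x) (lab x) R (T.erase x) lab hcf
  have hrat := ratio p hb hG hxW (hA x hxW) hdx
  rw [I4 hxW hxT hxR hs.labR hs.labT]
  have hcard : (T.erase x).card = T.card - 1 := card_erase_of_mem hxT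
  obtain ⟨m, hm⟩ : ∃ m, T.card = m + 1 := ⟨T.card - 1, by omega⟩
  rw [hcard, hm, Nat.add_sub_cancel, QQ_eq (by omega)] at hB
  rw [hm]
  set n := (nb G W x).card with hn
  have hP : 0 < PP C lam eta R.card m := PP_pos p.toPar0 _ _
  have hPP : PP C lam eta R.card (m + 1) = PP C lam eta R.card m * eta := by
    unfold PP; ring
  have hg : (1 : ℝ) ≤ 1 + lam * h := by
    have h1 := p.lam3
    have h2 := p.h_pos
    nlinarith
  have hgn : (1 + lam * h) ^ n ≤ eta * (1 - tau) :=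
    (pow_le_pow_right₀ hg hdx).trans p.p4
  have ha : 0 ≤ al z ^ n := pow_nonneg (al_pos hb).le n
  have hZ : 0 ≤ ‖Z G (W.erase x) z‖ := norm_nonneg _
  have heta : 0 ≤ eta := by linarith [p.eta1]
  calc ‖S G (W.erase x) (nb G W x) (lab x) R (T.erase x) lab z‖
      ≤ ‖Z G (W.erase x) z‖ * (al z ^ n * ((1 + lam * h) ^ n * PP C lam eta R.card m)) := hB
    _ ≤ ‖Z G (W.erase x) z‖ * (al z ^ n * ((eta * (1 - tau)) * PP C lam eta R.card m)) := by
        gcongr
    _ = (al z ^ n * ((1 - tau) * ‖Z G (W.erase x) z‖)) * (PP C lam eta R.card m * eta) := by ring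
    _ ≤ ‖Z G W z‖ * (PP C lam eta R.card m * eta) := by
        gcongr
    _ = ‖Z G W z‖ * PP C lam eta R.card (m + 1) := by rw [hPP]

end Pool.Agent.MP_74a55f_co.Blocks
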