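import Pool.Agent.Lib.MP_74a55f_blocks.Ratio
import Pool.Agent.Lib.MP_74a55f_blocks.IdB
import Pool.Agent.Lib.MP_74a55f_blocks.BndE

/-!
# Large states without an element of `T`
-/

set_option autoImplicit false
set_option linter.unusedSectionVars false

open Finset

namespace Pool.Agent.MP_74a55f_co.Blocks

variable {V : Type} [Fintype V] [DecidableEq V] {G : SimpleGraph V} [DecidableRel G.Adj] {D : ℕ}
  {W R T : Finset V} {lab : V → V} {z : ℂ} {h lam eta C tau : ℝ} {w : ℕ → ℝ}

namespace St3Aux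

theorem FF_step (p : Par0 h lam eta C) {r : ℕ} (hr : 3 ≤ r) :
    FF C lam eta (r - 2) 1 + FF C lam eta (r - 1) 0 ≤ PP C lam eta r 0 := by
  obtain ⟨k, rfl⟩ := Nat.exists_eq_add_of_le hr
  rcases Nat.eq_zero_or_pos k with rfl | hk
  · have h1 := p.Clam3
    simp only [Nat.add_zero]
    norm_num [FF, PP]
    linarith
  · rw [show 3 + k - 2 = k + 1 by omega, show 3 + k - 1 = k + 2 by omega,
      FF_eq (by omega : 3 ≤ k + 1 + 1), FF_eq (by omega : 3 ≤ k + 2 + 0)]
    have h1 := p.el
    have h2 := p.C_pos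
    have h3 : 0 < lam := by linarith [p.lam3]
    have h4 : 0 ≤ C * lam ^ (k + 1) := by positivity
    have h5 := mul_le_mul_of_nonneg_left h1 h4
    simp only [PP, pow_one, pow_zero, mul_one]
    calc C * lam ^ (k + 1) * eta + C * lam ^ (k + 2)
        = C * lam ^ (k + 1) * (eta + lam) := by ring
      _ ≤ C * lam ^ (k + 1) * lam ^ 2 := h5
      _ = C * lam ^ (3 + k) := by ring

end St3Aux

theorem stR (p : Par D h lam eta C tau w) (hb : Bg z h)
    (hG : ∀ v, (nb G univ v).card ≤ D + 1) (hA : ∀ x ∈ W, HA G D z C lam eta (W.erase x))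
    (hs : St G D W R ∅ lab) (hr : 3 ≤ R.card)
    (ih : ∀ (R' T' : Finset V) (b : V), St G D W R' T' lab → R'.card + T'.card < R.card →
      ‖S G W ∅ b R' T' lab z‖ ≤ ‖Z G W z‖ * FF C lam eta R'.card T'.card) (a : V) :
    ‖S G W ∅ a R ∅ lab z‖ ≤ ‖Z G W z‖ * PP C lam eta R.card 0 := by
  by_cases hc : ∃ s ∈ R, ∃ t ∈ R, G.Adj s t ∧ lab s = lab t
  · obtain ⟨s, hsR, t, htR, hadj, hl⟩ := hc
    have hne : t ≠ s := fun e => G.loopless.irrefl s (e ▸ hadj)
    have htR' : t ∈ R.erase s := mem_erase.2 ⟨hne, htR⟩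
    rw [I1 (hs.R_sub hsR) (hs.R_sub htR) hsR htR (notMem_empty s) hadj hl]
    have c1 : (R.erase s).card = R.card - 1 := card_erase_of_mem hsR
    have c2 : ((R.erase s).erase t).card = R.card - 2 := by
      rw [card_erase_of_mem htR', c1]; omega
    have c3 : (insert s (∅ : Finset V)).card = 1 := by simp
    have st1 : St G D W ((R.erase s).erase t) (insert s ∅) lab :=
      hs.eraseR.eraseR.insertT (hs.R_sub hsR)
        (fun hm => notMem_erase s R (mem_of_mem_erase hm)) (hs.labR s hsR) (hs.degR s hsR)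
    have e1 := ih ((R.erase s).erase t) (insert s ∅) a st1 (by rw [c2, c3]; omega)
    have e2 := ih (R.erase s) ∅ a hs.eraseR (by rw [c1, card_empty]; omega)
    rw [c2, c3] at e1
    rw [c1, card_empty] at e2
    calc ‖-S G W ∅ a ((R.erase s).erase t) (insert s ∅) lab z - S G W ∅ a (R.erase s) ∅ lab z‖
        ≤ ‖-S G W ∅ a ((R.erase s).erase t) (insert s ∅) lab z‖ +
          ‖S G W ∅ a (R.erase s) ∅ lab z‖ := norm_sub_le _ _
      _ ≤ ‖Z G W z‖ * FF C lam eta (R.card - 2) 1 + ‖Z G W z‖ * FF C lam eta (R.card - 1) 0 := by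
          rw [norm_neg]; exact add_le_add e1 e2
      _ = ‖Z G W z‖ * (FF C lam eta (R.card - 2) 1 + FF C lam eta (R.card - 1) 0) := by ring
      _ ≤ ‖Z G W z‖ * PP C lam eta R.card 0 :=
          mul_le_mul_of_nonneg_left (St3Aux.FF_step p.toPar0 hr) (norm_nonneg _)
  · push Not at hc
    have hne : R.Nonempty := card_pos.1 (by omega)
    obtain ⟨x, hxR⟩ := hne
    have hxW := hs.R_sub hxR
    have hlx := hs.labR x hxR
    have hdx := hs.degR x hxR
    have hax := hA x hxW
    have c1 : (R.erase x).card = R.card - 1 := card_erase_of_mem hxR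
    have hlx' : lab x ∉ W.erase x := fun hm => hlx (mem_of_mem_erase hm)
    have cf1 : Cf G D (W.erase x) (nb G W x) (lab x) (R.erase x) ∅ lab :=
      hs.eraseR.remove hG hxW (notMem_erase x R) (notMem_empty x) hlx'
    have cf2 : Cf G D (W.erase x) (nb G W x) x (R.erase x) ∅ lab :=
      hs.eraseR.remove hG hxW (notMem_erase x R) (notMem_empty x) (notMem_erase x W)
    rw [I5 hxW hxR (notMem_empty x) hs.labR hs.labT]
    have e1 := bndD p.toPar0 hb hax (nb G W x) (lab x) (R.erase x) ∅ lab cf1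
      (by
        intro u hu huR e
        rw [nb, mem_filter] at hu
        exact hc x hxR u (mem_of_mem_erase huR) hu.2 e.symm)
      (fun u _ hu => absurd hu (notMem_empty u)) (by rw [c1, card_empty]; omega)
    have e2 := bndE p hb hax (nb G W x) x (R.erase x) lab cf2
      (by
        intro v hv e
        exact hs.labR v (mem_of_mem_erase hv) (e ▸ hxW))
      (by rw [c1]; omega) hdx
    rw [S_empty (a := lab x) x] at e1
    rw [c1, card_empty] at e1
    rw [c1] at e2
    set n := (nb G W x).card with hn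
    set Z' := ‖Z G (W.erase x) z‖ with hZ'
    have hal := al_pos hb
    have hP : 0 < PP C lam eta (R.card - 1) 0 := PP_pos p.toPar0 _ _
    have hPP : PP C lam eta R.card 0 = lam * PP C lam eta (R.card - 1) 0 := by
      obtain ⟨k, hk⟩ := Nat.exists_eq_add_of_le hr
      rw [hk, show 3 + k - 1 = k + 2 by omega, PP, PP]
      ring
    have hG1 : (1 + lam * h) ^ n ≤ (1 + lam * h) ^ D := by
      have h1 : 0 < lam * h := mul_pos (by linarith [p.lam3]) hb.h_pos
      exact pow_le_pow_right₀ (by linarith) hdx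
    have hw := p.p8c n hdx
    have h7 := p.p7
    have hrat := ratio p hb hG hxW hax hdx
    have hsum : (1 + lam * h) ^ n - 1 + w n ≤ lam * (1 - tau) := by linarith
    have hZ0 : 0 ≤ Z' := norm_nonneg _
    have heq : S G (W.erase x) (nb G W x) (lab x) (R.erase x) ∅ lab z -
        S G (W.erase x) (nb G W x) x (R.erase x) ∅ lab z =
        (S G (W.erase x) (nb G W x) (lab x) (R.erase x) ∅ lab z -
          (1 - 1 / z) ^ n * S G (W.erase x) ∅ x (R.erase x) ∅ lab z) -
        (S G (W.erase x) (nb G W x) x (R.erase x) ∅ lab z -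
          (1 - 1 / z) ^ n * S G (W.erase x) ∅ x (R.erase x) ∅ lab z) := by ring
    rw [heq]
    calc _ ≤ _ := norm_sub_le _ _
      _ ≤ Z' * (al z ^ n * (PP C lam eta (R.card - 1) 0 * ((1 + lam * h) ^ n - 1))) +
          Z' * (al z ^ n * (PP C lam eta (R.card - 1) 0 * w n)) := add_le_add e1 e2
      _ = Z' * al z ^ n * PP C lam eta (R.card - 1) 0 * ((1 + lam * h) ^ n - 1 + w n) := by ring
      _ ≤ Z' * al z ^ n * PP C lam eta (R.card - 1) 0 * (lam * (1 - tau)) :=
          mul_le_mul_of_nonneg_left hsum (by positivity)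
      _ = (al z ^ n * ((1 - tau) * Z')) * PP C lam eta R.card 0 := by rw [hPP]; ring
      _ ≤ ‖Z G W z‖ * PP C lam eta R.card 0 :=
          mul_le_mul_of_nonneg_right hrat (PP_pos p.toPar0 _ _).le

end Pool.Agent.MP_74a55f_co.Blocks
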