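import Pool.Agent.Lib.MP_74a55f_blocks.St1
import Pool.Agent.Lib.MP_74a55f_blocks.St2
import Pool.Agent.Lib.MP_74a55f_blocks.St3

/-!
# The induction
-/

set_option autoImplicit false
set_option linter.unusedSectionVars false

open Finset

namespace Pool.Agent.MP_74a55f_co.Blocks

variable {V : Type} [Fintype V] [DecidableEq V] {G : SimpleGraph V} [DecidableRel G.Adj] {D : ℕ}
  {z : ℂ} {h lam eta C tau : ℝ} {w : ℕ → ℝ}

theorem main (p : Par D h lam eta C tau w) (hb : Bg z h)
    (hG : ∀ v, (nb G univ v).card ≤ D + 1) (W : Finset V) : HA G D z C lam eta W := by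
  induction W using Finset.strongInduction with
  | H W ihW =>
    have hA : ∀ x ∈ W, HA G D z C lam eta (W.erase x) := fun x hx => ihW _ (erase_ssubset hx)
    have hZ : Z G W z ≠ 0 := by
      rcases W.eq_empty_or_nonempty with hW | ⟨x, hx⟩
      · rw [hW, Z_empty]
        exact pow_ne_zero _ hb.ne
      · exact ratio_ne p hb hG hx (hA x hx)
    refine ⟨hZ, ?_⟩
    have key : ∀ (k : ℕ) (R T : Finset V) (lab : V → V) (a : V), R.card + T.card = k →
        St G D W R T lab →
        ‖S G W ∅ a R T lab z‖ ≤ ‖Z G W z‖ * FF C lam eta R.card T.card := by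
      intro k
      induction k using Nat.strong_induction_on with
      | _ k ihk =>
        intro R T lab a hk hs
        by_cases h3 : 3 ≤ R.card + T.card
        · rw [FF_eq h3]
          rcases Nat.eq_zero_or_pos T.card with hT | hT
          · have hT0 : T = ∅ := card_eq_zero.1 hT
            subst hT0
            rw [card_empty]
            refine stR p hb hG hA hs (by simpa using h3) ?_ a
            intro R' T' b hs' hlt
            refine ihk (R'.card + T'.card) ?_ R' T' lab b rfl hs'
            rw [← hk, card_empty]
            omega
          · exact stT p hb hG hA hs hT h3 a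
        · have hcases : (R.card = 0 ∧ T.card = 0) ∨ (R.card = 1 ∧ T.card = 0) ∨
              (R.card = 0 ∧ T.card = 1) ∨ (R.card = 2 ∧ T.card = 0) ∨
              (R.card = 1 ∧ T.card = 1) ∨ (R.card = 0 ∧ T.card = 2) := by omega
          rcases hcases with ⟨hR, hT⟩ | ⟨hR, hT⟩ | ⟨hR, hT⟩ | ⟨hR, hT⟩ | ⟨hR, hT⟩ | ⟨hR, hT⟩
          · rw [hR, hT]
            have hR0 : R = ∅ := card_eq_zero.1 hR
            have hT0 : T = ∅ := card_eq_zero.1 hT
            subst hR0 hT0
            rw [S_Z]
            simp [FF]
          · rw [hR, hT]
            have hT0 : T = ∅ := card_eq_zero.1 hT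
            subst hT0
            rw [st10 hs hR a, norm_zero]
            simp [FF]
          · rw [hR, hT]
            have hR0 : R = ∅ := card_eq_zero.1 hR
            subst hR0
            rw [st01 hs hT a]
            simp [FF]
          · rw [hR, hT]
            have hT0 : T = ∅ := card_eq_zero.1 hT
            subst hT0
            refine (st20 p hb hG hA hs hR a).trans ?_
            simp [FF]
          · rw [hR, hT]
            refine (st11 p hb hG hA hs hR hT a).trans ?_
            simp [FF]
          · rw [hR, hT]
            have hR0 : R = ∅ := card_eq_zero.1 hR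
            subst hR0
            rw [FF_02]
            exact st02 p hb hG hA hs hT a
    intro R T lab a hs
    exact key _ R T lab a rfl hs

end Pool.Agent.MP_74a55f_co.Blocks
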