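import Pool.Agent.Lib.MP_74a55f_blocks.FQ

/-!
# Closed forms of the refined bounds
-/

set_option autoImplicit false
set_option linter.unusedSectionVars false

namespace Pool.Agent.MP_74a55f_co.Blocks

variable {h lam eta C : ℝ}

theorem b0_nonneg (p : Par0 h lam eta C) (n r t : ℕ) : 0 ≤ b0 h (FF C lam eta) n r t := by
  induction n generalizing r with
  | zero => exact FF_nonneg p r t
  | succ n ih =>
    rw [b0]
    exact add_nonneg (ih r) (mul_nonneg p.h_pos.le (ih (r + 1)))

theorem b0_mono (p : Par0 h lam eta C) {n m : ℕ} (hnm : n ≤ m) (r t : ℕ) :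
    b0 h (FF C lam eta) n r t ≤ b0 h (FF C lam eta) m r t := by
  refine monotone_nat_of_le_succ (f := fun n => b0 h (FF C lam eta) n r t) (fun k => ?_) hnm
  change _ ≤ b0 h (FF C lam eta) k r t + h * b0 h (FF C lam eta) k (r + 1) t
  exact le_add_of_nonneg_right (mul_nonneg p.h_pos.le (b0_nonneg p k (r + 1) t))

theorem d0_mono (p : Par0 h lam eta C) {n m : ℕ} (hnm : n ≤ m) (r t : ℕ) :
    d0 h (FF C lam eta) n r t ≤ d0 h (FF C lam eta) m r t := by
  refine monotone_nat_of_le_succ (f := fun n => d0 h (FF C lam eta) n r t) (fun k => ?_) hnm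
  change _ ≤ d0 h (FF C lam eta) k r t + h * b0 h (FF C lam eta) k (r + 1) t
  exact le_add_of_nonneg_right (mul_nonneg p.h_pos.le (b0_nonneg p k (r + 1) t))

private theorem b0_big (n : ℕ) {r t : ℕ} (hrt : 3 ≤ r + t) :
    b0 h (FF C lam eta) n r t = PP C lam eta r t * (1 + lam * h) ^ n := by
  induction n generalizing r with
  | zero => rw [b0, FF_eq hrt, pow_zero, mul_one]
  | succ n ih =>
    rw [b0, ih hrt, ih (r := r + 1) (by omega)]
    simp only [PP]
    ring

private theorem b0_11 (n : ℕ) : b0 h (FF C lam eta) n 1 1 =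
    1 + C * lam * eta * ((1 + lam * h) ^ n - 1) := by
  induction n with
  | zero => simp [b0, FF]
  | succ n ih =>
    rw [b0, ih, b0_big n (by norm_num)]
    simp only [PP]
    ring

theorem b0_01 (n : ℕ) : b0 h (FF C lam eta) n 0 1 =
    1 + n * h + C * eta * ((1 + lam * h) ^ n - 1 - lam * n * h) := by
  induction n with
  | zero => simp [b0, FF]
  | succ n ih =>
    rw [b0, ih, b0_11]
    push_cast
    ring

private theorem b0_20 (n : ℕ) : b0 h (FF C lam eta) n 2 0 =
    1 + C * lam ^ 2 * ((1 + lam * h) ^ n - 1) := by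
  induction n with
  | zero => simp [b0, FF]
  | succ n ih =>
    rw [b0, ih, b0_big n (by norm_num)]
    simp only [PP]
    ring

private theorem b0_10 (n : ℕ) : b0 h (FF C lam eta) n 1 0 =
    n * h + C * lam * ((1 + lam * h) ^ n - 1 - lam * n * h) := by
  induction n with
  | zero => simp [b0, FF]
  | succ n ih =>
    rw [b0, ih, b0_20]
    push_cast
    ring

theorem d0_10 (n : ℕ) : d0 h (FF C lam eta) n 1 0 =
    n * h + C * lam * ((1 + lam * h) ^ n - 1 - lam * n * h) := by
  induction n with
  | zero => simp [d0]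
  | succ n ih =>
    rw [d0, ih, b0_20]
    push_cast
    ring

theorem d0_00 (n : ℕ) : d0 h (FF C lam eta) n 0 0 = tauf h lam C n := by
  induction n with
  | zero => simp [d0, tauf]
  | succ n ih =>
    rw [d0, ih, b0_10, tauf, tauf]
    push_cast
    ring

end Pool.Agent.MP_74a55f_co.Blocks
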