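import Pool.Agent.Lib.MP_74a55f_blocks.Defs

/-!
# The block moments are polynomials
-/

set_option autoImplicit false
set_option linter.unusedSectionVars false

open Finset Polynomial

namespace Pool.Agent.MP_74a55f_co.Blocks

variable {V : Type} [Fintype V] [DecidableEq V]

namespace PolyAux

theorem finite_setoid : Finite (Setoid V) := by
  refine Finite.of_injective (fun r : Setoid V => fun (x y : V) => r x y) ?_
  intro r s h
  ext x y
  exact iff_of_eq (congrFun (congrFun h x) y)

/-- The maps with a given kernel are the injections of the quotient. -/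
theorem card_ker (r : Setoid V) [Fintype (Quotient r)] (n : ℕ)
    [DecidablePred fun σ : V → Fin n => Setoid.ker σ = r] :
    (univ.filter (fun σ : V → Fin n => Setoid.ker σ = r)).card
      = n.descFactorial (Fintype.card (Quotient r)) := by
  classical
  have h1 : Fintype.card (Quotient r ↪ Fin n) = n.descFactorial (Fintype.card (Quotient r)) := by
    rw [Fintype.card_embedding_eq, Fintype.card_fin]
  rw [← h1, ← Finset.card_univ]
  symm
  refine Finset.card_bij (fun (f : Quotient r ↪ Fin n) _ => fun v => f (Quotient.mk r v))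
    ?_ ?_ ?_
  · intro f _
    rw [mem_filter]
    refine ⟨mem_univ _, ?_⟩
    ext x y
    rw [Setoid.ker_def]
    constructor
    · intro h
      exact Quotient.exact (f.injective h)
    · intro h
      exact congrArg f (Quotient.sound h)
  · intro f _ g _ h
    ext x
    induction x using Quotient.ind with
    | _ v => exact congrArg Fin.val (congrFun h v)
  · intro σ hσ
    rw [mem_filter] at hσ
    have hk : Setoid.ker σ = r := hσ.2
    have hk' : ∀ x y, r x y ↔ σ x = σ y := by
      intro x y
      rw [← hk, Setoid.ker_def]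
    refine ⟨⟨fun q => Quotient.lift σ (fun x y h => (hk' x y).1 h) q, ?_⟩, mem_univ _, ?_⟩
    · intro q1 q2
      induction q1 using Quotient.ind with
      | _ x =>
        induction q2 using Quotient.ind with
        | _ y =>
          intro h
          exact Quotient.sound ((hk' x y).2 h)
    · rfl

end PolyAux

/-- A sum of a function of the kernel is a polynomial in the number of colours. -/
theorem exists_poly (E : Setoid V → ℂ[X]) :
    ∃ p : ℂ[X], ∀ n : ℕ, p.eval (n : ℂ) =
      ∑ σ : V → Fin n, (E (Setoid.ker σ)).eval (n : ℂ) := by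
  classical
  have : Finite (Setoid V) := PolyAux.finite_setoid
  let : Fintype (Setoid V) := Fintype.ofFinite _
  let : ∀ r : Setoid V, Fintype (Quotient r) := fun r => Fintype.ofFinite _
  refine ⟨∑ r : Setoid V, E r * descPochhammer ℂ (Fintype.card (Quotient r)), fun n => ?_⟩
  rw [eval_finsetSum, ← Finset.sum_fiberwise (s := univ)
    (g := fun σ : V → Fin n => Setoid.ker σ)]
  refine Finset.sum_congr rfl fun r _ => ?_
  rw [eval_mul, descPochhammer_eval_eq_descFactorial, ← PolyAux.card_ker r n]
  rw [Finset.sum_congr rfl (g := fun _ => (E r).eval (n : ℂ))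
    (fun σ hσ => by rw [(mem_filter.1 hσ).2]), Finset.sum_const, nsmul_eq_mul, mul_comm]

theorem exists_polyS (G : SimpleGraph V) [DecidableRel G.Adj] (W N : Finset V) (a : V)
    (R T : Finset V) (lab : V → V) :
    ∃ p : ℂ[X], ∀ n : ℕ, p.eval (n : ℂ) = natS G W N a R T lab n := by
  classical
  obtain ⟨p, hp⟩ := exists_poly (V := V) (fun r =>
    C (if ∀ u ∈ W, ∀ v ∈ W, G.Adj u v → ¬ r u v then 1 else 0) *
    (∏ u ∈ N, (1 - C (if r u a then 1 else 0))) *
    (∏ v ∈ R, (X * C (if r v (lab v) then 1 else 0) - 1)) *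
    ∏ v ∈ T, (X * C (if r v (lab v) then 1 else 0)))
  refine ⟨p, fun n => ?_⟩
  rw [hp, natS]
  refine Finset.sum_congr rfl fun σ _ => ?_
  simp only [trm, prp, ind, eval_mul, eval_prod, eval_sub, eval_one, eval_C, eval_X,
    Setoid.ker_def, ne_eq]

theorem exists_polyZ (G : SimpleGraph V) [DecidableRel G.Adj] (W : Finset V) :
    ∃ p : ℂ[X], ∀ n : ℕ, p.eval (n : ℂ) = natZ G W n := by
  classical
  obtain ⟨p, hp⟩ := exists_poly (V := V) (fun r =>
    C (if ∀ u ∈ W, ∀ v ∈ W, G.Adj u v → ¬ r u v then 1 else 0))
  refine ⟨p, fun n => ?_⟩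
  rw [hp, natZ]
  refine Finset.sum_congr rfl fun σ _ => ?_
  simp only [prp, eval_C, Setoid.ker_def, ne_eq]

/-- the polynomial of a block moment -/
noncomputable def pS (G : SimpleGraph V) [DecidableRel G.Adj] (W N : Finset V) (a : V)
    (R T : Finset V) (lab : V → V) : ℂ[X] :=
  (exists_polyS G W N a R T lab).choose

/-- the polynomial counting the maps that are proper on `W` -/
noncomputable def pZ (G : SimpleGraph V) [DecidableRel G.Adj] (W : Finset V) : ℂ[X] :=
  (exists_polyZ G W).choose

theorem pS_nat (G : SimpleGraph V) [DecidableRel G.Adj] (W N : Finset V) (a : V)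
    (R T : Finset V) (lab : V → V) (n : ℕ) :
    (pS G W N a R T lab).eval (n : ℂ) = natS G W N a R T lab n :=
  (exists_polyS G W N a R T lab).choose_spec n

theorem pZ_nat (G : SimpleGraph V) [DecidableRel G.Adj] (W : Finset V) (n : ℕ) :
    (pZ G W).eval (n : ℂ) = natZ G W n :=
  (exists_polyZ G W).choose_spec n

/-- the block moment at `z` -/
noncomputable def S (G : SimpleGraph V) [DecidableRel G.Adj] (W N : Finset V) (a : V)
    (R T : Finset V) (lab : V → V) (z : ℂ) : ℂ := (pS G W N a R T lab).eval z

/-- the partition function at `z` -/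
noncomputable def Z (G : SimpleGraph V) [DecidableRel G.Adj] (W : Finset V) (z : ℂ) : ℂ :=
  (pZ G W).eval z

/-- Polynomials which agree at all positive integers are equal. -/
theorem transfer {p q : ℂ[X]} (h : ∀ n : ℕ, 1 ≤ n → p.eval (n : ℂ) = q.eval (n : ℂ)) : p = q := by
  refine Polynomial.eq_of_infinite_eval_eq p q ?_
  have h1 : ((fun n : ℕ => (n : ℂ)) '' Set.Ici 1).Infinite :=
    (Set.Ici_infinite 1).image (fun x _ y _ hxy => by exact_mod_cast hxy)
  refine h1.mono ?_
  rintro _ ⟨n, hn, rfl⟩
  exact h n hn

end Pool.Agent.MP_74a55f_co.Blocks
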