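import Pool.Agent.Lib.MP_74a55f_blocks.Bnd0
import Pool.Agent.Lib.MP_74a55f_blocks.Num

/-!
# The ratio of two successive partition functions
-/

set_option autoImplicit false
set_option linter.unusedSectionVars false

open Finset

namespace Pool.Agent.MP_74a55f_co.Blocks

variable {V : Type} [Fintype V] [DecidableEq V] {G : SimpleGraph V} [DecidableRel G.Adj] {D : ℕ}
  {W : Finset V} {z : ℂ} {h lam eta C tau : ℝ} {w : ℕ → ℝ}

private theorem ratio_aux (p : Par D h lam eta C tau w) (hb : Bg z h)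
    (hG : ∀ v, (nb G univ v).card ≤ D + 1) {x : V} (hx : x ∈ W)
    (hA : HA G D z C lam eta (W.erase x)) {m : ℕ} (hm : (nb G W x).card ≤ m) :
    al z ^ (nb G W x).card * ((1 - tauf h lam C m) * ‖Z G (W.erase x) z‖) ≤ ‖Z G W z‖ := by
  have hc : Cf G D (W.erase x) (nb G W x) x ∅ ∅ (id : V → V) :=
    St.empty.remove hG hx (notMem_empty x) (notMem_empty x) (notMem_erase x W)
  have h1 := bndD0 p.toPar0 hb hA (nb G W x) x ∅ ∅ (id : V → V) hc (disjoint_empty_right _)
    (disjoint_empty_right _)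
  rw [← I6 hx, S_Z, card_empty] at h1
  have h2 : d0 h (FF C lam eta) (nb G W x).card 0 0 ≤ tauf h lam C m := by
    rw [← d0_00 (eta := eta)]
    exact d0_mono p.toPar0 hm 0 0
  have h3 : ‖(1 - 1 / z) ^ (nb G W x).card * Z G (W.erase x) z‖
      = al z ^ (nb G W x).card * ‖Z G (W.erase x) z‖ := by
    rw [norm_mul, norm_pow]
    rfl
  have h4 : ‖(1 - 1 / z) ^ (nb G W x).card * Z G (W.erase x) z‖ - ‖Z G W z‖ ≤
      ‖Z G W z - (1 - 1 / z) ^ (nb G W x).card * Z G (W.erase x) z‖ := by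
    rw [norm_sub_rev]
    exact norm_sub_norm_le _ _
  have h5 : ‖Z G (W.erase x) z‖ * (al z ^ (nb G W x).card *
      d0 h (FF C lam eta) (nb G W x).card 0 0) ≤
      ‖Z G (W.erase x) z‖ * (al z ^ (nb G W x).card * tauf h lam C m) := by
    have h6 : 0 ≤ al z ^ (nb G W x).card := pow_nonneg (norm_nonneg _) _
    gcongr
  rw [h3] at h4
  calc al z ^ (nb G W x).card * ((1 - tauf h lam C m) * ‖Z G (W.erase x) z‖)
      = al z ^ (nb G W x).card * ‖Z G (W.erase x) z‖
        - ‖Z G (W.erase x) z‖ * (al z ^ (nb G W x).card * tauf h lam C m) := by ring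
    _ ≤ ‖Z G W z‖ := by linarith

theorem ratio (p : Par D h lam eta C tau w) (hb : Bg z h)
    (hG : ∀ v, (nb G univ v).card ≤ D + 1) {x : V} (hx : x ∈ W)
    (hA : HA G D z C lam eta (W.erase x)) (hd : (nb G W x).card ≤ D) :
    al z ^ (nb G W x).card * ((1 - tau) * ‖Z G (W.erase x) z‖) ≤ ‖Z G W z‖ := by
  refine le_trans ?_ (ratio_aux p hb hG hx hA hd)
  have h1 : 0 ≤ al z ^ (nb G W x).card := pow_nonneg (norm_nonneg _) _
  have h2 : 1 - tau ≤ 1 - tauf h lam C D := by linarith [p.tau_D]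
  exact mul_le_mul_of_nonneg_left (mul_le_mul_of_nonneg_right h2 (norm_nonneg _)) h1

theorem ratio_ne (p : Par D h lam eta C tau w) (hb : Bg z h)
    (hG : ∀ v, (nb G univ v).card ≤ D + 1) {x : V} (hx : x ∈ W)
    (hA : HA G D z C lam eta (W.erase x)) : Z G W z ≠ 0 := by
  have hd : (nb G W x).card ≤ D + 1 :=
    (card_le_card (filter_subset_filter _ (subset_univ W))).trans (hG x)
  have h1 := ratio_aux p hb hG hx hA hd
  have h2 : 0 < al z ^ (nb G W x).card := pow_pos (al_pos hb) _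
  have h3 : 0 < ‖Z G (W.erase x) z‖ := norm_pos_iff.2 hA.1
  have h4 : 0 < 1 - tauf h lam C (D + 1) := by linarith [p.tau_D1]
  have h5 : 0 < ‖Z G W z‖ := lt_of_lt_of_le (mul_pos h2 (mul_pos h4 h3)) h1
  exact norm_pos_iff.1 h5

end Pool.Agent.MP_74a55f_co.Blocks
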