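import Pool.Agent.Lib.MP_74a55f_blocks.Ratio
import Pool.Agent.Lib.MP_74a55f_blocks.IdB
import Pool.Agent.Lib.MP_74a55f_blocks.IdD

/-!
# Small states
-/

set_option autoImplicit false
set_option linter.unusedSectionVars false

open Finset

namespace Pool.Agent.MP_74a55f_co.Blocks

variable {V : Type} [Fintype V] [DecidableEq V] {G : SimpleGraph V} [DecidableRel G.Adj] {D : ℕ}
  {W R T : Finset V} {lab : V → V} {z : ℂ} {h lam eta C tau : ℝ} {w : ℕ → ℝ}

theorem st10 (hs : St G D W R ∅ lab) (hR : R.card = 1) (a : V) : S G W ∅ a R ∅ lab z = 0 := by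
  obtain ⟨u, rfl⟩ := card_eq_one.1 hR
  exact I12R (empty_subset _) hs.R_sub (empty_subset _) (mem_singleton_self u) (notMem_empty u)
    (hs.labR u (mem_singleton_self u)) (Or.inl rfl)
    (fun v hv hne => absurd (mem_singleton.1 hv) hne) (fun v hv => absurd hv (notMem_empty v))

theorem st01 (hs : St G D W ∅ T lab) (hT : T.card = 1) (a : V) :
    S G W ∅ a ∅ T lab z = Z G W z := by
  obtain ⟨u, rfl⟩ := card_eq_one.1 hT
  rw [I12T (empty_subset _) (empty_subset _) hs.T_sub (notMem_empty u) (mem_singleton_self u)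
    (hs.labT u (mem_singleton_self u)) (Or.inl rfl) (fun v hv => absurd hv (notMem_empty v))
    (fun v hv hne => absurd (mem_singleton.1 hv) hne)]
  rw [erase_singleton]
  exact S_Z

namespace St1Aux

theorem nb_disj {x y : V} (hadj : ¬ G.Adj x y) : Disjoint (nb G W x) {y} := by
  rw [disjoint_singleton_right, nb, mem_filter]
  exact fun hm => hadj hm.2

theorem pair_erase {x y : V} (hxy : x ≠ y) : ({x, y} : Finset V).erase x = {y} := by
  rw [erase_insert (by rw [mem_singleton]; exact hxy)]

/-- the last step: a bound for the restricted problem gives one for the partition function -/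
theorem fin_step (p : Par D h lam eta C tau w) (hb : Bg z h)
    (hG : ∀ v, (nb G univ v).card ≤ D + 1) {x : V} (hx : x ∈ W)
    (hA : HA G D z C lam eta (W.erase x)) (hd : (nb G W x).card ≤ D) {s : ℂ} {b c : ℝ}
    (hs : ‖s‖ ≤ ‖Z G (W.erase x) z‖ * (al z ^ (nb G W x).card * b)) (hbc : b ≤ (1 - tau) * c)
    (hc : 0 ≤ c) : ‖s‖ ≤ ‖Z G W z‖ * c := by
  have h1 := ratio p hb hG hx hA hd
  have h2 : 0 ≤ ‖Z G (W.erase x) z‖ * al z ^ (nb G W x).card :=
    mul_nonneg (norm_nonneg _) (pow_nonneg (norm_nonneg _) _)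
  calc ‖s‖ ≤ ‖Z G (W.erase x) z‖ * al z ^ (nb G W x).card * b := by rw [mul_assoc]; exact hs
    _ ≤ ‖Z G (W.erase x) z‖ * al z ^ (nb G W x).card * ((1 - tau) * c) :=
        mul_le_mul_of_nonneg_left hbc h2
    _ = (al z ^ (nb G W x).card * ((1 - tau) * ‖Z G (W.erase x) z‖)) * c := by ring
    _ ≤ ‖Z G W z‖ * c := mul_le_mul_of_nonneg_right h1 hc

end St1Aux

open St1Aux

theorem st20 (p : Par D h lam eta C tau w) (hb : Bg z h)
    (hG : ∀ v, (nb G univ v).card ≤ D + 1) (hA : ∀ x ∈ W, HA G D z C lam eta (W.erase x))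
    (hs : St G D W R ∅ lab) (hR : R.card = 2) (a : V) :
    ‖S G W ∅ a R ∅ lab z‖ ≤ ‖Z G W z‖ := by
  obtain ⟨x, y, hxy, rfl⟩ := card_eq_two.1 hR
  have hxR : x ∈ ({x, y} : Finset V) := mem_insert_self _ _
  have hyR : y ∈ ({x, y} : Finset V) := mem_insert_of_mem (mem_singleton_self y)
  have hxW := hs.R_sub hxR
  have hyW := hs.R_sub hyR
  have hlx := hs.labR x hxR
  have hly := hs.labR y hyR
  by_cases hl : lab x = lab y
  · by_cases hadj : G.Adj x y
    · rw [I1 hxW hyW hxR hyR (notMem_empty x) hadj hl, pair_erase hxy, erase_singleton]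
      have hsT : St G D W ∅ (insert x ∅) lab :=
        St.empty.insertT hxW (notMem_empty x) hlx (hs.degR x hxR)
      have hsR : St G D W {y} ∅ lab := by
        have := hs.eraseR (u := x)
        rwa [pair_erase hxy] at this
      rw [st01 hsT (by rw [insert_empty_eq, card_singleton]) a, st10 hsR (card_singleton y) a,
        sub_zero, norm_neg]
    · have hsR : St G D W (({x, y} : Finset V).erase x) ∅ lab := hs.eraseR
      have hcf : Cf G D (W.erase x) (nb G W x) (lab x) (({x, y} : Finset V).erase x) ∅ lab :=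
        hsR.remove hG hxW (notMem_erase x _) (notMem_empty x)
          (fun hm => hlx (mem_of_mem_erase hm))
      rw [pair_erase hxy] at hcf
      have hyx : y ∈ ({y} : Finset V) := mem_singleton_self y
      have hlyx : lab y ∉ W.erase x := fun hm => hly (mem_of_mem_erase hm)
      have h2 : S G (W.erase x) (nb G W x) x {y} ∅ lab z = 0 :=
        I12R hcf.N_sub hcf.R_sub (empty_subset _) hyx (notMem_empty y) hlyx
          (Or.inr (fun e => hly (e ▸ hxW)))
          (fun v hv hne => absurd (mem_singleton.1 hv) hne)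
          (fun v hv => absurd hv (notMem_empty v))
      have h0 : S G (W.erase x) ∅ (lab x) {y} ∅ lab z = 0 :=
        I12R (empty_subset _) hcf.R_sub (empty_subset _) hyx (notMem_empty y) hlyx
          (Or.inl rfl) (fun v hv hne => absurd (mem_singleton.1 hv) hne)
          (fun v hv => absurd hv (notMem_empty v))
      have h1 := bndD0 p.toPar0 hb (hA x hxW) (nb G W x) (lab x) {y} ∅ lab hcf
        (nb_disj hadj) (disjoint_empty_right _)
      rw [h0, mul_zero, sub_zero, card_singleton, card_empty] at h1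
      rw [I5 hxW hxR (notMem_empty x) hs.labR (fun v hv => absurd hv (notMem_empty v)),
        pair_erase hxy, h2, sub_zero]
      have h3 : d0 h (FF C lam eta) (nb G W x).card 1 0 ≤ (1 - tau) * 1 := by
        refine (d0_mono p.toPar0 (hs.degR x hxR) 1 0).trans ?_
        rw [d0_10, mul_one]
        exact p.p6
      have := fin_step p hb hG hxW (hA x hxW) (hs.degR x hxR) h1 h3 zero_le_one
      rwa [mul_one] at this
  · rw [I12R (empty_subset _) hs.R_sub (empty_subset _) hxR (notMem_empty x) hlx (Or.inl rfl)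
      (fun v hv hne => by
        rcases mem_insert.1 hv with rfl | hv
        · exact absurd rfl hne
        · rw [mem_singleton.1 hv]
          exact fun e => hl e.symm)
      (fun v hv => absurd hv (notMem_empty v)), norm_zero]
    exact norm_nonneg _

theorem st11 (p : Par D h lam eta C tau w) (hb : Bg z h)
    (hG : ∀ v, (nb G univ v).card ≤ D + 1) (hA : ∀ x ∈ W, HA G D z C lam eta (W.erase x))
    (hs : St G D W R T lab) (hR : R.card = 1) (hT : T.card = 1) (a : V) :
    ‖S G W ∅ a R T lab z‖ ≤ ‖Z G W z‖ := by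
  obtain ⟨x, rfl⟩ := card_eq_one.1 hT
  have hxT : x ∈ ({x} : Finset V) := mem_singleton_self x
  have hxR : x ∉ R := disjoint_singleton_right.1 hs.disj
  have hs0 : St G D W R ∅ lab := by
    have := hs.eraseT (u := x)
    rwa [erase_singleton] at this
  rw [I13 hxT hxR, erase_singleton, st10 hs0 hR a, add_zero]
  exact st20 p hb hG hA (hs0.insertR (hs.T_sub hxT) (notMem_empty x) (hs.labT x hxT)
    (hs.degT x hxT)) (by rw [card_insert_of_notMem hxR, hR]) a

theorem st02 (p : Par D h lam eta C tau w) (hb : Bg z h)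
    (hG : ∀ v, (nb G univ v).card ≤ D + 1) (hA : ∀ x ∈ W, HA G D z C lam eta (W.erase x))
    (hs : St G D W ∅ T lab) (hT : T.card = 2) (a : V) :
    ‖S G W ∅ a ∅ T lab z‖ ≤ ‖Z G W z‖ * (C * eta ^ 2) := by
  obtain ⟨x, y, hxy, rfl⟩ := card_eq_two.1 hT
  have hxT : x ∈ ({x, y} : Finset V) := mem_insert_self _ _
  have hyT : y ∈ ({x, y} : Finset V) := mem_insert_of_mem (mem_singleton_self y)
  have hxW := hs.T_sub hxT
  have hyW := hs.T_sub hyT
  have hlx := hs.labT x hxT
  have hly := hs.labT y hyT
  have hc : (0 : ℝ) ≤ C * eta ^ 2 := le_trans zero_le_one p.Ceta2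
  by_cases hl : lab x = lab y
  · by_cases hadj : G.Adj x y
    · rw [I3 hxW hyW hxT hyT hadj hl, norm_zero]
      exact mul_nonneg (norm_nonneg _) hc
    · have hsT : St G D W ∅ (({x, y} : Finset V).erase x) lab := hs.eraseT
      have hcf : Cf G D (W.erase x) (nb G W x) (lab x) ∅ (({x, y} : Finset V).erase x) lab :=
        hsT.remove hG hxW (notMem_empty x) (notMem_erase x _)
          (fun hm => hlx (mem_of_mem_erase hm))
      rw [pair_erase hxy] at hcf
      have h1 := bndB0 p.toPar0 hb (hA x hxW) (nb G W x) (lab x) ∅ {y} lab hcf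
        (disjoint_empty_right _) (nb_disj hadj)
      rw [card_singleton, card_empty] at h1
      rw [I4 hxW hxT (notMem_empty x) (fun v hv => absurd hv (notMem_empty v)) hs.labT,
        pair_erase hxy]
      have h3 : b0 h (FF C lam eta) (nb G W x).card 0 1 ≤ (1 - tau) * (C * eta ^ 2) := by
        refine (b0_mono p.toPar0 (hs.degT x hxT) 0 1).trans ?_
        rw [b0_01]
        exact p.p5
      exact fin_step p hb hG hxW (hA x hxW) (hs.degT x hxT) h1 h3 hc
  · have hsy : St G D W ∅ {y} lab := by
      have := hs.eraseT (u := x)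
      rwa [pair_erase hxy] at this
    rw [I12T (empty_subset _) (empty_subset _) hs.T_sub (notMem_empty x) hxT hlx (Or.inl rfl)
      (fun v hv => absurd hv (notMem_empty v))
      (fun v hv hne => by
        rcases mem_insert.1 hv with rfl | hv
        · exact absurd rfl hne
        · rw [mem_singleton.1 hv]
          exact fun e => hl e.symm),
      pair_erase hxy, st01 hsy (card_singleton y) a]
    exact le_mul_of_one_le_right (norm_nonneg _) p.Ceta2

end Pool.Agent.MP_74a55f_co.Blocks
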